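import Pool.Agent.Lib.MP_629a14_nt.Kp.Main

/-!
The convex order of the Goldbach counts of two sets of primes with given relative densities in
all reduced residue classes.
-/

set_option autoImplicit false

namespace Pool.Agent.Results.MP_629a14_nt.ConvexOrder

open Filter Topology

/-- The number of ordered representations `n = p + q` with primes `p ∈ A`, `q ∈ B`. -/
noncomputable def repsIn (A B : Set ℕ) (n : ℕ) : ℕ :=
  Set.ncard {p : ℕ | p ≤ n ∧ p.Prime ∧ (n - p).Prime ∧ p ∈ A ∧ n - p ∈ B}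

/-- The twin prime constant, the product of `1 - 1 / (p - 1) ^ 2` over the primes `p > 2`. -/
noncomputable def twinConst : ℝ :=
  ∏' p : ℕ, if p.Prime ∧ 2 < p then 1 - 1 / ((p : ℝ) - 1) ^ 2 else 1

/-- The number of ordered representations of the even number `n` as a sum of two primes predicted
by Hardy and Littlewood. -/
noncomputable def HL (n : ℕ) : ℝ :=
  2 * twinConst * (∏ p ∈ n.primeFactors.filter (fun p => 2 < p), (((p : ℝ) - 1) / ((p : ℝ) - 2))) *
    (n / (Real.log n) ^ 2)

/-- The number of representations in `A` and `B`, divided by the prediction for all primes. -/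
noncomputable def ratio (A B : Set ℕ) (n : ℕ) : ℝ := (repsIn A B n : ℝ) / HL n

/-- The number of primes `p ≤ x` in `A` with `p ≡ a (mod q)`. -/
noncomputable def primesIn (A : Set ℕ) (q a x : ℕ) : ℕ :=
  Set.ncard {p : ℕ | p ≤ x ∧ p.Prime ∧ p ∈ A ∧ p ≡ a [MOD q]}

/-- In every reduced residue class the primes in `A` have density `α` relative to all primes of
this class. -/
def HasDensity (A : Set ℕ) (α : ℝ) : Prop :=
  ∀ q a : ℕ, 1 ≤ q → a.Coprime q →
    Tendsto (fun x : ℕ => (primesIn A q a x : ℝ) / primesIn Set.univ q a x) atTop (𝓝 α)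

/-- The mean value of `h` over the even numbers in `[1, N]`, i.e. `2 / N` times the sum. -/
noncomputable def evenMean (N : ℕ) (h : ℕ → ℝ) : ℝ :=
  2 / (N : ℝ) * ∑ n ∈ (Finset.Icc 1 N).filter (fun n => Even n), h n

/-- The integral of `φ` with respect to the following probability measure: mass `|1 - α - β|` at
`max 0 (α + β - 1)`, mass `|α - β|` at `min α β`, and twice the Lebesgue measure between these two
points. -/
noncomputable def extremal (φ : ℝ → ℝ) (α β : ℝ) : ℝ :=
  |1 - α - β| * φ (max 0 (α + β - 1)) + |α - β| * φ (min α β) +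
    2 * ∫ x in (max 0 (α + β - 1))..(min α β), φ x

/-- The set of the numbers `p` for which the fractional part of `√2 p` is less than `α`. -/
def bohr (α : ℝ) : Set ℕ := {p : ℕ | Int.fract (Real.sqrt 2 * p) < α}

private theorem reps_eq (A B : Set ℕ) (n : ℕ) :
    repsIn A B n = Pool.Agent.Lib.MP_629a14_nt.Sm.repsIn A B n := by
  classical
  unfold repsIn Pool.Agent.Lib.MP_629a14_nt.Sm.repsIn
  rw [← Set.ncard_coe_finset]
  congr 1
  ext p
  simp only [Set.mem_ofPred_eq, Finset.coe_filter, Finset.mem_range]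
  constructor
  · rintro ⟨h1, h2⟩
    exact ⟨by omega, h2⟩
  · rintro ⟨h1, h2⟩
    exact ⟨by omega, h2⟩

private theorem ratio_eq (A B : Set ℕ) (n : ℕ) :
    ratio A B n = Pool.Agent.Lib.MP_629a14_nt.Kp.rho A B n := by
  unfold ratio Pool.Agent.Lib.MP_629a14_nt.Kp.rho
  rw [reps_eq]
  rfl

private theorem bohr_eq (α : ℝ) : bohr α = Pool.Agent.Lib.MP_629a14_nt.Kp.arcS 0 α := by
  unfold bohr Pool.Agent.Lib.MP_629a14_nt.Kp.arcS
  ext p
  simp only [Set.mem_ofPred_eq]
  exact ⟨fun h => ⟨Int.fract_nonneg _, h⟩, fun h => h.2⟩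

private theorem dens_eq (A : Set ℕ) (α : ℝ) :
    HasDensity A α ↔ Pool.Agent.Lib.MP_629a14_nt.Kp.HasDensity A α := Iff.rfl

private theorem mean_eq (A B : Set ℕ) (φ : ℝ → ℝ) (N : ℕ) :
    evenMean N (fun n => φ (ratio A B n)) = Pool.Agent.Lib.MP_629a14_nt.Kp.avg N
      (fun n => φ (Pool.Agent.Lib.MP_629a14_nt.Kp.rho A B n)) := by
  simp only [ratio_eq]
  rfl

/-- (1) Let `A`, `B` be sets of natural numbers such that the primes in `A`, in `B` have relative
densities `α`, `β` in every reduced residue class. Then for every `φ` which is convex on `[0, ∞)`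
the upper limit of the mean value of `φ (ratio A B n)` over the even `n ≤ N` is at most
`extremal φ α β`.
(2) For all `α`, `β` in `[0, 1]` the sets `bohr α`, `bohr β` have relative densities `α`, `β` in
every reduced residue class, and for every `φ` which is convex on `[0, ∞)` the mean value of
`φ (ratio (bohr α) (bohr β) n)` over the even `n ≤ N` tends to `extremal φ α β`. -/
theorem result :
    (∀ (A B : Set ℕ) (α β : ℝ), HasDensity A α → HasDensity B β →
      ∀ φ : ℝ → ℝ, ConvexOn ℝ (Set.Ici 0) φ →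
        ∀ ε : ℝ, 0 < ε → ∀ᶠ N : ℕ in atTop,
          evenMean N (fun n => φ (ratio A B n)) ≤ extremal φ α β + ε) ∧
    (∀ α β : ℝ, 0 ≤ α → α ≤ 1 → 0 ≤ β → β ≤ 1 →
      HasDensity (bohr α) α ∧ HasDensity (bohr β) β ∧
      ∀ φ : ℝ → ℝ, ConvexOn ℝ (Set.Ici 0) φ →
        Tendsto (fun N : ℕ => evenMean N (fun n => φ (ratio (bohr α) (bohr β) n))) atTop
          (𝓝 (extremal φ α β))) := by
  refine ⟨fun A B α β hA hB φ hφ ε hε => ?_, fun α β hα0 hα1 hβ0 hβ1 => ⟨?_, ?_, fun φ hφ => ?_⟩⟩
  · obtain ⟨N₀, h⟩ := Pool.Agent.Lib.MP_629a14_nt.Kp.main_upper hA hB φ hφ ε hε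
    filter_upwards [eventually_ge_atTop N₀] with N hN
    rw [mean_eq]
    exact h N hN
  · rw [bohr_eq, dens_eq]
    have := Pool.Agent.Lib.MP_629a14_nt.Kp.arc_density 0 α le_rfl hα0 hα1
    rwa [sub_zero] at this
  · rw [bohr_eq, dens_eq]
    have := Pool.Agent.Lib.MP_629a14_nt.Kp.arc_density 0 β le_rfl hβ0 hβ1
    rwa [sub_zero] at this
  · simp only [mean_eq, bohr_eq]
    exact Pool.Agent.Lib.MP_629a14_nt.Kp.main_example hα0 hα1 hβ0 hβ1 φ hφ

end Pool.Agent.Results.MP_629a14_nt.ConvexOrder
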