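import Mathlib
import Pool.Agent.Lib.MP_629a14_nt.En.Main

set_option autoImplicit false

namespace Pool.Agent.Lib.MP_629a14_nt.Old.EnergySets

open Finset

/-- The number of ordered representations of n as a sum of two primes. -/
def r2 (n : ℕ) : ℕ := ((range (n + 1)).filter (fun p => p.Prime ∧ (n - p).Prime)).card

/-- The twin prime constant, the product of 1 - 1/(p-1)^2 over the primes p > 2. -/
noncomputable def twinConst : ℝ :=
  ∏' p : ℕ, if p.Prime ∧ 2 < p then 1 - 1 / ((p : ℝ) - 1) ^ 2 else 1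

/-- The number of representations of the even number n as a sum of two primes predicted by
Hardy and Littlewood. -/
noncomputable def HL (n : ℕ) : ℝ :=
  2 * twinConst * (∏ p ∈ n.primeFactors.filter (fun p => 2 < p), (((p : ℝ) - 1) / ((p : ℝ) - 2))) *
    (n / (Real.log n) ^ 2)

/-- The additive energy of order s of a finite family: the number of pairs (x,y) of s-tuples of
indices for which the sums of the a (x j) and of the a (y j) are equal. -/
def energy {k : ℕ} (a : Fin k → ℕ) (s : ℕ) : ℕ :=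
  ((univ : Finset ((Fin s → Fin k) × (Fin s → Fin k))).filter
    (fun xy => ∑ j, a (xy.1 j) = ∑ j, a (xy.2 j))).card

/-- The number of s-tuples of elements of S with sum m. -/
def tuples (S : Finset ℕ) (s m : ℕ) : ℕ :=
  ((Fintype.piFinset (fun _ : Fin s => S)).filter (fun x => ∑ j, x j = m)).card

theorem part_one (s : ℕ) (hs : 1 ≤ s) (K ε : ℝ) (hε : 0 < ε) :
    ∃ N₀ : ℕ, ∀ N : ℕ, N₀ ≤ N → ∀ (k : ℕ) (a : Fin k → ℕ),
      (∀ i, Even (a i) ∧ 1 ≤ a i ∧ a i ≤ N) → (N : ℝ) * energy a s ≤ K * (k : ℝ) ^ (2 * s) →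
      (((univ : Finset (Fin k)).filter
        (fun i => ε * HL (a i) < |(r2 (a i) : ℝ) - HL (a i)|)).card : ℝ) ≤ ε * k := by
  obtain ⟨N₀, h⟩ := Pool.Agent.Lib.MP_629a14_nt.En.main s hs (max K 1) ε
    (lt_of_lt_of_le one_pos (le_max_right _ _)) hε
  refine ⟨N₀, fun N hN k a ha hE => ?_⟩
  have h1 := h N hN k a ⟨fun i => (ha i).2, hE.trans
    (mul_le_mul_of_nonneg_right (le_max_left _ _) (by positivity))⟩ (fun i => (ha i).1)
  exact h1

theorem part_two (s g : ℕ) (hs : 1 ≤ s) (c ε : ℝ) (hc : 0 < c) (hε : 0 < ε) :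
    ∃ N₀ : ℕ, ∀ N : ℕ, N₀ ≤ N → ∀ S : Finset ℕ, (∀ n ∈ S, Even n ∧ 1 ≤ n ∧ n ≤ N) →
      c * N ≤ (S.card : ℝ) ^ s → (∀ m, tuples S s m ≤ g) →
      ((S.filter (fun n => ε * HL n < |(r2 n : ℝ) - HL n|)).card : ℝ) ≤ ε * S.card := by
  classical
  obtain ⟨N₀, h⟩ := part_one s hs (g / c) ε hε
  refine ⟨N₀, fun N hN S hS hcard hg => ?_⟩
  let a : Fin S.card → ℕ := fun i => ((S.equivFin.symm i : S) : ℕ)
  have hmem : ∀ i, a i ∈ S := fun i => (S.equivFin.symm i).2
  have hinj : Function.Injective a := by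
    intro i j hij
    exact S.equivFin.symm.injective (Subtype.ext hij)
  have hfib : ∀ m : ℕ, ((univ : Finset (Fin s → Fin S.card)).filter
      (fun y => ∑ j, a (y j) = m)).card ≤ g := by
    intro m
    refine le_trans ?_ (hg m)
    unfold tuples
    refine card_le_card_of_injOn (fun y j => a (y j)) ?_ ?_
    · intro y hy
      have hy' := (mem_filter.1 (mem_coe.1 hy)).2
      exact mem_coe.2 (mem_filter.2 ⟨Fintype.mem_piFinset.2 fun j => hmem _, hy'⟩)
    · intro y _ z _ hyz
      funext j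
      exact hinj (congrFun hyz j)
  have hen : energy a s ≤ g * S.card ^ s := by
    unfold energy
    have h1 : ((univ : Finset ((Fin s → Fin S.card) × (Fin s → Fin S.card))).filter
        (fun xy => ∑ j, a (xy.1 j) = ∑ j, a (xy.2 j))).card =
        ∑ x : Fin s → Fin S.card, ((univ : Finset (Fin s → Fin S.card)).filter
          (fun y => ∑ j, a (y j) = ∑ j, a (x j))).card := by
      rw [card_eq_sum_card_fiberwise (f := fun xy => xy.1) (t := univ) (fun _ _ => mem_univ _)]
      refine sum_congr rfl fun x _ => ?_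
      refine card_bij' (fun xy _ => xy.2) (fun y _ => (x, y)) ?_ ?_ ?_ ?_
      · rintro ⟨x', y⟩ h2
        rw [mem_filter, mem_filter] at h2
        obtain ⟨⟨_, h3⟩, h4⟩ := h2
        simp only at h3 h4
        subst h4
        exact mem_filter.2 ⟨mem_univ _, h3.symm⟩
      · intro y h2
        rw [mem_filter] at h2
        exact mem_filter.2 ⟨mem_filter.2 ⟨mem_univ _, h2.2.symm⟩, rfl⟩
      · rintro ⟨x', y⟩ h2
        rw [mem_filter, mem_filter] at h2
        obtain ⟨⟨_, h3⟩, h4⟩ := h2
        simp only at h4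
        simp only [h4]
      · intro y _
        rfl
    rw [h1]
    calc ∑ x : Fin s → Fin S.card, ((univ : Finset (Fin s → Fin S.card)).filter
          (fun y => ∑ j, a (y j) = ∑ j, a (x j))).card
        ≤ ∑ _x : Fin s → Fin S.card, g := sum_le_sum fun x _ => hfib _
      _ = g * S.card ^ s := by
          rw [sum_const, card_univ, Fintype.card_fun, Fintype.card_fin, Fintype.card_fin,
            smul_eq_mul, mul_comm]
  have hbound : (N : ℝ) * energy a s ≤ (g / c) * (S.card : ℝ) ^ (2 * s) := by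
    have h1 : (energy a s : ℝ) ≤ g * (S.card : ℝ) ^ s := by exact_mod_cast hen
    have h2 : (N : ℝ) ≤ (S.card : ℝ) ^ s / c := by
      rw [le_div_iff₀ hc]
      linarith
    calc (N : ℝ) * energy a s ≤ ((S.card : ℝ) ^ s / c) * (g * (S.card : ℝ) ^ s) :=
          mul_le_mul h2 h1 (by positivity) (by positivity)
      _ = (g / c) * (S.card : ℝ) ^ (2 * s) := by
          rw [two_mul, pow_add]
          ring
  have h3 := h N hN S.card a (fun i => hS _ (hmem i)) hbound
  have h4 : (S.filter (fun n => ε * HL n < |(r2 n : ℝ) - HL n|)).card =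
      ((univ : Finset (Fin S.card)).filter
        (fun i => ε * HL (a i) < |(r2 (a i) : ℝ) - HL (a i)|)).card := by
    symm
    refine card_bij (fun i _ => a i) ?_ ?_ ?_
    · intro i hi
      exact mem_filter.2 ⟨hmem i, (mem_filter.1 hi).2⟩
    · intro i _ j _ hij
      exact hinj hij
    · intro n hn
      obtain ⟨hn1, hn2⟩ := mem_filter.1 hn
      refine ⟨S.equivFin ⟨n, hn1⟩, mem_filter.2 ⟨mem_univ _, ?_⟩, ?_⟩
      · simp only [a, Equiv.symm_apply_apply]
        exact hn2
      · simp only [a, Equiv.symm_apply_apply]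
  rw [h4]
  exact h3

/-- (1) For every s at least 1, every K and every eps > 0 there is N0 such that for N at least N0
and every finite family of k even integers in [1,N] whose additive energy of order s is at most
K k^(2s) / N, all but at most eps k indices i satisfy abs (r2 (a i) - HL (a i)) <= eps HL (a i).
(2) For every s, g at least 1 and c, eps > 0 there is N0 such that for N at least N0 and every set S of
even integers in [1,N] with card(S)^s at least c N for which every number is the sum of at most g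
s-tuples of elements of S, all but at most eps card(S) elements n of S satisfy
abs (r2 n - HL n) <= eps HL n. -/
theorem result :
    (∀ s : ℕ, 1 ≤ s → ∀ K ε : ℝ, 0 < ε → ∃ N₀ : ℕ, ∀ N : ℕ, N₀ ≤ N →
      ∀ (k : ℕ) (a : Fin k → ℕ), (∀ i, Even (a i) ∧ 1 ≤ a i ∧ a i ≤ N) →
      (N : ℝ) * energy a s ≤ K * (k : ℝ) ^ (2 * s) →
      (((univ : Finset (Fin k)).filter
        (fun i => ε * HL (a i) < |(r2 (a i) : ℝ) - HL (a i)|)).card : ℝ) ≤ ε * k) ∧
    (∀ s g : ℕ, 1 ≤ s → ∀ c ε : ℝ, 0 < c → 0 < ε → ∃ N₀ : ℕ, ∀ N : ℕ, N₀ ≤ N →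
      ∀ S : Finset ℕ, (∀ n ∈ S, Even n ∧ 1 ≤ n ∧ n ≤ N) →
      c * N ≤ (S.card : ℝ) ^ s → (∀ m, tuples S s m ≤ g) →
      ((S.filter (fun n => ε * HL n < |(r2 n : ℝ) - HL n|)).card : ℝ) ≤ ε * S.card) :=
  ⟨fun s hs K ε hε => part_one s hs K ε hε,
    fun s g hs c ε hc hε => part_two s g hs c ε hc hε⟩

end Pool.Agent.Lib.MP_629a14_nt.Old.EnergySets
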