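import Pool.Agent.Lib.MP_629a14_nt.Sm.Exact
import Pool.Agent.Lib.MP_629a14_nt.Sm.Self

/-!
The least lower density of the sum of two sets of primes.
-/

set_option autoImplicit false

namespace Pool.Agent.Results.MP_629a14_nt.ExactSumsets

open Filter Topology

/-- The number of ordered representations `n = p + q` with primes `p ∈ A`, `q ∈ B`. -/
noncomputable def repsIn (A B : Set ℕ) (n : ℕ) : ℕ :=
  Set.ncard {p : ℕ | p ≤ n ∧ p.Prime ∧ (n - p).Prime ∧ p ∈ A ∧ n - p ∈ B}

/-- The number of primes `p ≤ x` in `A`. -/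
noncomputable def primesIn (A : Set ℕ) (x : ℕ) : ℕ :=
  Set.ncard {p : ℕ | p ≤ x ∧ p.Prime ∧ p ∈ A}

/-- The comparison function `n^2 / (φ(n) log^2 n)`. -/
noncomputable def size (n : ℕ) : ℝ := (n : ℝ) ^ 2 / ((n.totient : ℝ) * Real.log n ^ 2)

/-- Lower density of `A` relative to the primes. -/
noncomputable def relLower (A : Set ℕ) : ℝ :=
  liminf (fun x : ℕ => (primesIn A x : ℝ) / primesIn Set.univ x) atTop

/-- Lower density of a set of positive integers. -/
noncomputable def lowerDensity (S : Set ℕ) : ℝ :=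
  liminf (fun N : ℕ => (Set.ncard {n : ℕ | 1 ≤ n ∧ n ≤ N ∧ n ∈ S} : ℝ) / N) atTop

/-- The even `n` with at least `c * size n` representations. -/
def rich (c : ℝ) (A B : Set ℕ) : Set ℕ := {n : ℕ | Even n ∧ c * size n ≤ repsIn A B n}

/-- The numbers with at least one representation. -/
def sums (A B : Set ℕ) : Set ℕ := {n : ℕ | 0 < repsIn A B n}

/-- The infimum of the lower density of `rich c A B` over all `A`, `B` of lower densities at least
`α`, `β` relative to the primes. -/
noncomputable def leastRich (c α β : ℝ) : ℝ :=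
  sInf {d : ℝ | ∃ A B : Set ℕ, α ≤ relLower A ∧ β ≤ relLower B ∧ d = lowerDensity (rich c A B)}

/-- The infimum of the lower density of `sums A B` over the same pairs. -/
noncomputable def leastSum (α β : ℝ) : ℝ :=
  sInf {d : ℝ | ∃ A B : Set ℕ, α ≤ relLower A ∧ β ≤ relLower B ∧ d = lowerDensity (sums A B)}

/-- The infimum of the lower density of `sums B B` over all `B` of lower density at least `β`
relative to the primes. -/
noncomputable def leastSelf (β : ℝ) : ℝ :=
  sInf {d : ℝ | ∃ B : Set ℕ, β ≤ relLower B ∧ d = lowerDensity (sums B B)}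

/-- The exponent `log (q / (q - 1)) / log (q - 1)`. -/
noncomputable def expo (q : ℕ) : ℝ := Real.log ((q : ℝ) / ((q : ℝ) - 1)) / Real.log ((q : ℝ) - 1)

private theorem reps_eq (A B : Set ℕ) (n : ℕ) :
    repsIn A B n = Pool.Agent.Lib.MP_629a14_nt.Sm.repsIn A B n := by
  classical
  unfold repsIn Pool.Agent.Lib.MP_629a14_nt.Sm.repsIn
  rw [← Set.ncard_coe_finset]
  congr 1
  ext p
  simp only [Set.mem_ofPred_eq, Finset.coe_filter, Finset.mem_range]
  constructor
  · rintro ⟨h1, h2⟩
    exact ⟨by omega, h2⟩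
  · rintro ⟨h1, h2⟩
    exact ⟨by omega, h2⟩

private theorem cnt_eq (B : Set ℕ) (x : ℕ) :
    primesIn B x = Pool.Agent.Lib.MP_629a14_nt.Rob.cntB B x := by
  classical
  unfold primesIn Pool.Agent.Lib.MP_629a14_nt.Rob.cntB
  rw [← Set.ncard_coe_finset]
  congr 1
  ext p
  simp only [Set.mem_ofPred_eq, Finset.coe_filter, Finset.mem_Icc]
  constructor
  · rintro ⟨h1, h2, h3⟩
    exact ⟨⟨h2.one_le, h1⟩, h2, h3⟩
  · rintro ⟨⟨_, h1⟩, h2, h3⟩
    exact ⟨h1, h2, h3⟩

private theorem relLower_eq (B : Set ℕ) :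
    relLower B = Pool.Agent.Lib.MP_629a14_nt.Sm.relLow B := by
  unfold relLower Pool.Agent.Lib.MP_629a14_nt.Sm.relLow
  simp only [cnt_eq]

private theorem rich_eq (c : ℝ) (A B : Set ℕ) :
    lowerDensity (rich c A B) = Pool.Agent.Lib.MP_629a14_nt.Sm.rich c A B := by
  classical
  unfold lowerDensity Pool.Agent.Lib.MP_629a14_nt.Sm.rich
  congr 1
  funext N
  congr 2
  rw [← Set.ncard_coe_finset]
  congr 1
  ext n
  simp only [Set.mem_ofPred_eq, Finset.coe_filter, Finset.mem_Icc, reps_eq, rich, size]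
  tauto

private theorem sums_eq (A B : Set ℕ) :
    lowerDensity (sums A B) = Pool.Agent.Lib.MP_629a14_nt.Sm.sumDens A B := by
  classical
  unfold lowerDensity Pool.Agent.Lib.MP_629a14_nt.Sm.sumDens
  congr 1
  funext N
  congr 2
  rw [← Set.ncard_coe_finset]
  congr 1
  ext n
  simp only [Set.mem_ofPred_eq, Finset.coe_filter, Finset.mem_Icc, reps_eq, sums]
  tauto

private theorem expo_eq (q : ℕ) (h5 : 5 ≤ q) :
    1 / Pool.Agent.Lib.MP_629a14_nt.Sm.sE (q - 1) = expo q := by
  have h1 : (((q - 1 : ℕ)) : ℝ) = (q : ℝ) - 1 := by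
    rw [Nat.cast_sub (by omega)]
    norm_num
  have h5' : (5 : ℝ) ≤ q := by exact_mod_cast h5
  unfold Pool.Agent.Lib.MP_629a14_nt.Sm.sE expo
  rw [h1, one_div_div]
  congr 2
  have : (q : ℝ) - 1 ≠ 0 := by linarith
  field_simp
  ring

/-- (1) Exact values. Let `P = primorial w`, `w ≥ 3` and `1 ≤ k ≤ φ(P)`. For sets `A`, `B` of lower
densities at least `k / φ(P)`, `1 / φ(P)` relative to the primes the least lower density of the set of
sums is `k / P`; the same holds in the limit `c → 0+` for the even `n` with at least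
`c n^2 / (φ(n) log^2 n)` representations. For the sums of `B` with itself it is `1 / P`.
(2) The inequality for all densities, which gives the lower bounds in (1). -/
theorem result :
    (∀ w : ℕ, 3 ≤ w →
      leastSelf (1 / (primorial w).totient) = 1 / (primorial w : ℝ) ∧
      ∀ k : ℕ, 1 ≤ k → k ≤ (primorial w).totient →
        leastSum ((k : ℝ) / (primorial w).totient) (1 / (primorial w).totient) =
          (k : ℝ) / primorial w ∧
        Tendsto (fun c : ℝ => leastRich c ((k : ℝ) / (primorial w).totient)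
          (1 / (primorial w).totient)) (𝓝[>] 0) (𝓝 ((k : ℝ) / primorial w))) ∧
    (∀ q : ℕ, q.Prime → 5 ≤ q → ∀ ε : ℝ, 0 < ε → ∃ c : ℝ, 0 < c ∧ ∀ A B : Set ℕ,
      ((primorial q).totient : ℝ) / primorial q * relLower A *
        ((primorial q).totient * relLower B) ^ expo q - ε ≤ lowerDensity (rich c A B)) := by
  refine ⟨?_, ?_⟩
  · intro w hw
    have hex : ∀ k : ℕ, 1 ≤ k → k ≤ (primorial w).totient →
        leastSum ((k : ℝ) / (primorial w).totient) (1 / (primorial w).totient) =
          (k : ℝ) / primorial w ∧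
        Tendsto (fun c : ℝ => leastRich c ((k : ℝ) / (primorial w).totient)
          (1 / (primorial w).totient)) (𝓝[>] 0) (𝓝 ((k : ℝ) / primorial w)) := by
      intro k hk hk2
      obtain ⟨h1, h2⟩ := Pool.Agent.Lib.MP_629a14_nt.Sm.exact w hw k hk hk2
      unfold Pool.Agent.Lib.MP_629a14_nt.Sm.least at h1
      unfold Pool.Agent.Lib.MP_629a14_nt.Sm.leastSum at h2
      unfold leastSum leastRich
      simp only [relLower_eq, rich_eq, sums_eq]
      exact ⟨h2, h1⟩
    refine ⟨?_, hex⟩
    have h := Pool.Agent.Lib.MP_629a14_nt.Sm.self_val w hw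
    unfold leastSelf
    simp only [relLower_eq, sums_eq]
    exact h
  · intro q hq h5 ε hε
    obtain ⟨c, hc, h⟩ := Pool.Agent.Lib.MP_629a14_nt.Sm.rich_ge q hq h5 ε hε
    refine ⟨c, hc, fun A B => ?_⟩
    have h1 := h A B
    rw [expo_eq q h5] at h1
    rw [rich_eq, relLower_eq, relLower_eq]
    exact h1

end Pool.Agent.Results.MP_629a14_nt.ExactSumsets
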