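import Mathlib
import Pool.Agent.Lib.MP_629a14_nt.Spc.Main
import Pool.Agent.Lib.MP_629a14_nt.Spc.Struct

set_option autoImplicit false

namespace Pool.Agent.Results.MP_629a14_nt.LargeSpectrum

open Finset

/-- The number of pairs (p,q) with p in A, q in B and p + q = n. -/
def rep (A B : Finset ℕ) (n : ℕ) : ℕ := ((A ×ˢ B).filter (fun pq => pq.1 + pq.2 = n)).card

/-- The twin prime constant, the product of 1 - 1/(p-1)^2 over the primes p > 2. -/
noncomputable def twinConst : ℝ :=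
  ∏' p : ℕ, if p.Prime ∧ 2 < p then 1 - 1 / ((p : ℝ) - 1) ^ 2 else 1

/-- The number of representations of the even number n as a sum of two primes predicted by
Hardy and Littlewood. -/
noncomputable def HL (n : ℕ) : ℝ :=
  2 * twinConst * (∏ p ∈ n.primeFactors.filter (fun p => 2 < p), (((p : ℝ) - 1) / ((p : ℝ) - 2))) *
    (n / (Real.log n) ^ 2)

/-- F is a trigonometric polynomial with T frequencies (arbitrary real numbers) and coefficients
of absolute value at most T. -/
def TrigPoly (T : ℕ) (F : ℕ → ℂ) : Prop :=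
  ∃ (z : Fin T → ℂ) (t : Fin T → ℝ), (∀ i, ‖z i‖ ≤ T) ∧
    ∀ n : ℕ, F n = ∑ i, z i * Complex.exp (2 * Real.pi * (t i * n) * Complex.I)

/-- The average of exp(2 pi i t b) over the members b of a finite family. -/
noncomputable def mean {m : ℕ} (b : Fin m → ℕ) (t : ℝ) : ℂ :=
  (∑ j, Complex.exp (2 * Real.pi * (b j * t) * Complex.I)) / m

/-- The family b consists of integers in [1,N], and the sum of the 2s-th powers of those of the
numbers abs (mean b (h/(2N+1))), h = 0,...,2N, which are larger than u is at most K. -/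
def Tame (s : ℕ) (K u : ℝ) (N : ℕ) {m : ℕ} (b : Fin m → ℕ) : Prop :=
  (∀ j, 1 ≤ b j ∧ b j ≤ N) ∧
    ∑ h ∈ (range (2 * N + 1)).filter (fun h : ℕ => u < ‖mean b ((h : ℝ) / (2 * N + 1))‖),
      ‖mean b ((h : ℝ) / (2 * N + 1))‖ ^ (2 * s) ≤ K

theorem mean_eq {k : ℕ} (a : Fin k → ℕ) (t : ℝ) :
    mean a t = Pool.Agent.Lib.MP_629a14_nt.Spc.bh a t := by
  unfold mean Pool.Agent.Lib.MP_629a14_nt.Spc.bh
  congr 1
  refine sum_congr rfl fun i _ => ?_
  unfold Pool.Agent.Lib.MP_629a14_nt.ee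
  congr 1
  push_cast
  ring

theorem tame_spec {s : ℕ} (hs : 1 ≤ s) {K η : ℝ} {N k : ℕ} {a : Fin k → ℕ}
    (h : Tame s K η N a) : Pool.Agent.Lib.MP_629a14_nt.Spc.Spec s K η N k a := by
  refine ⟨h.1, le_trans (le_of_eq ?_) h.2⟩
  rw [sum_filter]
  refine sum_congr rfl fun l _ => ?_
  have e : Pool.Agent.Lib.MP_629a14_nt.Rob.fr N l = -((l : ℝ) / (2 * N + 1)) := by
    unfold Pool.Agent.Lib.MP_629a14_nt.Rob.fr
    push_cast
    rfl
  unfold Pool.Agent.Lib.MP_629a14_nt.Spc.big
  rw [e, Pool.Agent.Lib.MP_629a14_nt.Spc.bh_neg, ← mean_eq]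
  split_ifs
  · rfl
  · rw [zero_pow (by omega)]

theorem trig_of_cx {T : ℕ} {F : ℕ → ℂ} (h : Pool.Agent.Lib.MP_629a14_nt.Spc.Cx T F) :
    TrigPoly T F := by
  classical
  obtain ⟨ι, i1, z, θ, h1, h2, h3⟩ := h
  let e : ι ↪ Fin T := (Fintype.equivFin ι).toEmbedding.trans (Fin.castLEEmb h1)
  refine ⟨Function.extend e z 0, Function.extend e θ 0, fun i => ?_, fun n => ?_⟩
  · by_cases hi : ∃ x, e x = i
    · obtain ⟨x, rfl⟩ := hi
      rw [e.injective.extend_apply]
      exact h2 x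
    · rw [Function.extend_apply' _ _ _ hi, Pi.zero_apply, norm_zero]
      exact Nat.cast_nonneg _
  · rw [h3 n]
    have h4 : ∀ i ∉ (univ : Finset ι).map e, Function.extend e z 0 i *
        Complex.exp (2 * Real.pi * (Function.extend e θ 0 i * n) * Complex.I) = 0 := by
      intro i hi
      rw [mem_map] at hi
      push Not at hi
      have h5 : ¬ ∃ x, e x = i := by
        rintro ⟨x, hx⟩
        exact hi x (mem_univ _) hx
      rw [Function.extend_apply' _ _ _ h5, Pi.zero_apply, zero_mul]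
    rw [← sum_subset (subset_univ ((univ : Finset ι).map e)) fun i _ hi => h4 i hi, sum_map]
    refine sum_congr rfl fun x _ => ?_
    rw [e.injective.extend_apply, e.injective.extend_apply]
    unfold Pool.Agent.Lib.MP_629a14_nt.ee
    push_cast
    rfl

theorem rep_all {A B : Finset ℕ} {N n : ℕ} (hA : ∀ p ∈ A, p.Prime) (hB : ∀ p ∈ B, p.Prime)
    (hall : ∀ p, p.Prime → p ≤ N → p ∈ A ∧ p ∈ B) (hn : n ≤ N) :
    rep A B n = Pool.Agent.Lib.MP_629a14_nt.En.r2 n := by
  unfold rep Pool.Agent.Lib.MP_629a14_nt.En.r2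
  refine card_bij' (fun pq _ => pq.1) (fun p _ => (p, n - p)) ?_ ?_ ?_ ?_
  · rintro ⟨p, q⟩ h
    rw [mem_filter, mem_product] at h
    obtain ⟨⟨h1, h2⟩, h3⟩ := h
    simp only at h1 h2 h3 ⊢
    have h4 : n - p = q := by omega
    rw [mem_filter, mem_range, h4]
    exact ⟨by omega, hA p h1, hB q h2⟩
  · intro p h
    rw [mem_filter, mem_range] at h
    obtain ⟨h1, h2, h3⟩ := h
    rw [mem_filter, mem_product]
    exact ⟨⟨(hall p h2 (by omega)).1, (hall (n - p) h3 (by omega)).2⟩, by simp only; omega⟩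
  · rintro ⟨p, q⟩ h
    rw [mem_filter, mem_product] at h
    have h3 := h.2
    simp only at h3 ⊢
    rw [Prod.mk.injEq]
    exact ⟨rfl, by omega⟩
  · intro p _
    rfl

theorem hl_pos {n : ℕ} (hn : 2 ≤ n) : 0 < HL n := by
  have h1 : HL n = Pool.Agent.Lib.MP_629a14_nt.En.HL n := rfl
  have h2 := Pool.Agent.Lib.MP_629a14_nt.En.sing_ge n
  have h3 := Pool.Agent.Lib.MP_629a14_nt.En.tw_pos
  have h4 : (1 : ℝ) < n := by exact_mod_cast (by omega : 1 < n)
  have h5 := Real.log_pos h4
  rw [h1]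
  unfold Pool.Agent.Lib.MP_629a14_nt.En.HL
  have h6 : 0 < Pool.Agent.Lib.MP_629a14_nt.En.sing n := by linarith
  positivity

/-- For all s at least 1, all K and all eps > 0 there are T, c > 0 and N0 such that for all N at
least N0 and all finite sets A, B of primes there is a trigonometric polynomial F with T
frequencies and coefficients of absolute value at most T with the following property. Let b be
a finite family of m integers in [1,N] for which the sum of the 2s-th powers of those of the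
numbers abs (mean b (h/(2N+1))), h = 0,...,2N, which are larger than c / (log N)^2 is at most K.
Then rep A B n / HL n is within eps of F n for all even members n of b with at most eps m
exceptions. If A and B contain all primes up to N, one can take F = 1. -/
theorem result (s : ℕ) (hs : 1 ≤ s) (K ε : ℝ) (hε : 0 < ε) :
    ∃ T : ℕ, ∃ c : ℝ, 0 < c ∧ ∃ N₀ : ℕ, ∀ N : ℕ, N₀ ≤ N →
      ∀ A B : Finset ℕ, (∀ p ∈ A, p.Prime) → (∀ p ∈ B, p.Prime) →
      ∃ F : ℕ → ℂ, TrigPoly T F ∧
        ((∀ p, p.Prime → p ≤ N → p ∈ A ∧ p ∈ B) → ∀ n, F n = 1) ∧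
        ∀ (m : ℕ) (b : Fin m → ℕ), Tame s K (c / (Real.log N) ^ 2) N b →
          (((univ : Finset (Fin m)).filter (fun j =>
            Even (b j) ∧ ε < ‖(((rep A B (b j) : ℝ) / HL (b j) : ℝ) : ℂ) - F (b j)‖)).card : ℝ) ≤
              ε * m := by
  classical
  have hK : 0 ≤ max K 0 := le_max_right _ _
  obtain ⟨c1, hc1, N1, h1⟩ := Pool.Agent.Lib.MP_629a14_nt.Spc.main s hs (max K 0) ε hK hε
  obtain ⟨T, c2, hc2, N2, h2⟩ := Pool.Agent.Lib.MP_629a14_nt.Spc.struct s hs (max K 0) ε hK hε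
  refine ⟨max T 1, min c1 c2, lt_min hc1 hc2, max N1 N2, fun N hN A B hA hB => ?_⟩
  have hη0 : 0 ≤ min c1 c2 / (Real.log N) ^ 2 := by
    have := lt_min hc1 hc2
    positivity
  have hspec : ∀ {l : ℕ} {d : Fin l → ℕ}, Tame s K (min c1 c2 / (Real.log N) ^ 2) N d →
      Pool.Agent.Lib.MP_629a14_nt.Spc.Spec s (max K 0) (min c1 c2 / (Real.log N) ^ 2) N l d :=
    fun h => ⟨h.1, (tame_spec hs h).2.trans (le_max_left _ _)⟩
  have hη1 : min c1 c2 / (Real.log N) ^ 2 ≤ c1 / (Real.log N) ^ 2 :=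
    div_le_div_of_nonneg_right (min_le_left _ _) (by positivity)
  have hη2 : min c1 c2 / (Real.log N) ^ 2 ≤ c2 / (Real.log N) ^ 2 :=
    div_le_div_of_nonneg_right (min_le_right _ _) (by positivity)
  by_cases hall : ∀ p, p.Prime → p ≤ N → p ∈ A ∧ p ∈ B
  · refine ⟨fun _ => 1, ?_, fun _ _ => rfl, fun m b hb => ?_⟩
    · have h3 : Pool.Agent.Lib.MP_629a14_nt.Spc.Cx 1 (fun _ => 1) :=
        ⟨Unit, inferInstance, fun _ => 1, fun _ => 0, by simp, by simp, fun n => by
          simp [Pool.Agent.Lib.MP_629a14_nt.ee_zero]⟩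
      exact trig_of_cx (h3.mono (le_max_right _ _))
    · refine le_trans ?_ (h1 N ((le_max_left _ _).trans hN) m _ b (hspec hb) hη0 hη1)
      have hsub : (univ : Finset (Fin m)).filter (fun j =>
            Even (b j) ∧ ε < ‖(((rep A B (b j) : ℝ) / HL (b j) : ℝ) : ℂ) - 1‖) ⊆
          (univ : Finset (Fin m)).filter (fun j => Even (b j) ∧
            ε * Pool.Agent.Lib.MP_629a14_nt.En.HL (b j) <
              |(Pool.Agent.Lib.MP_629a14_nt.En.r2 (b j) : ℝ) -
                Pool.Agent.Lib.MP_629a14_nt.En.HL (b j)|) := by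
        intro j hj
        rw [mem_filter] at hj ⊢
        obtain ⟨_, hev, hlt⟩ := hj
        refine ⟨mem_univ _, hev, ?_⟩
        have hb1 := hb.1 j
        have hb2 : 2 ≤ b j := by
          rcases hev with ⟨r, hr⟩
          omega
        have hpos := hl_pos hb2
        rw [rep_all hA hB hall hb1.2] at hlt
        have e1 : HL (b j) = Pool.Agent.Lib.MP_629a14_nt.En.HL (b j) := rfl
        rw [e1] at hlt hpos
        have e2 : (((Pool.Agent.Lib.MP_629a14_nt.En.r2 (b j) : ℝ) /
            Pool.Agent.Lib.MP_629a14_nt.En.HL (b j) : ℝ) : ℂ) - 1 =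
            ((((Pool.Agent.Lib.MP_629a14_nt.En.r2 (b j) : ℝ) -
              Pool.Agent.Lib.MP_629a14_nt.En.HL (b j)) /
              Pool.Agent.Lib.MP_629a14_nt.En.HL (b j) : ℝ) : ℂ) := by
          rw [sub_div, div_self hpos.ne']
          push_cast
          rfl
        rw [e2, Complex.norm_real, Real.norm_eq_abs, abs_div, abs_of_pos hpos,
          lt_div_iff₀ hpos] at hlt
        exact hlt
      beta_reduce
      exact_mod_cast card_le_card hsub
  · obtain ⟨F, hF1, hF2⟩ := h2 N ((le_max_right _ _).trans hN) A B hA hB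
    refine ⟨F, trig_of_cx (hF1.mono (le_max_left _ _)), fun h => absurd h hall,
      fun m b hb => ?_⟩
    refine le_trans ?_ (hF2 m _ b hη0 hη2 (hspec hb))
    have hsub : (univ : Finset (Fin m)).filter (fun j =>
          Even (b j) ∧ ε < ‖(((rep A B (b j) : ℝ) / HL (b j) : ℝ) : ℂ) - F (b j)‖) ⊆
        (univ : Finset (Fin m)).filter (fun j =>
          ε < ‖(Pool.Agent.Lib.MP_629a14_nt.Fc.RR A B (b j) : ℂ) - F (b j)‖) := by
      intro j hj
      rw [mem_filter] at hj ⊢
      exact ⟨hj.1, hj.2.2⟩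
    exact_mod_cast card_le_card hsub

end Pool.Agent.Results.MP_629a14_nt.LargeSpectrum
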