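import Pool.Agent.Lib.MP_629a14_nt.Mp.Fin
import Pool.Agent.Lib.MP_629a14_nt.Mn.Final

/-!
Mann's theorem for the primes: the least lower density of the sum of two sets of primes with given
lower densities in the residue classes.
-/

set_option autoImplicit false

namespace Pool.Agent.Lib.MP_629a14_nt.Old.MannPrimes

open Filter Topology

/-- The number of ordered representations `n = p + q` with primes `p ∈ A`, `q ∈ B`. -/
noncomputable def repsIn (A B : Set ℕ) (n : ℕ) : ℕ :=
  Set.ncard {p : ℕ | p ≤ n ∧ p.Prime ∧ (n - p).Prime ∧ p ∈ A ∧ n - p ∈ B}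

/-- The number of primes `p ≤ x` in `A` with `p ≡ a (mod q)`. -/
noncomputable def primesIn (A : Set ℕ) (q a x : ℕ) : ℕ :=
  Set.ncard {p : ℕ | p ≤ x ∧ p.Prime ∧ p ∈ A ∧ p ≡ a [MOD q]}

/-- For every multiple `q` of `W` and every `a` coprime to `q` the primes of `A` in the class `a`
modulo `q` have lower density at least `u (a mod W)` relative to all primes of this class. -/
def LowerProfile (A : Set ℕ) (W : ℕ) (u : ℕ → ℝ) : Prop :=
  ∀ q a : ℕ, 1 ≤ q → W ∣ q → a.Coprime q →
    u (a % W) ≤ liminf (fun x : ℕ => (primesIn A q a x : ℝ) / primesIn Set.univ q a x) atTop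

/-- The comparison function `n^2 / (φ(n) log^2 n)`. -/
noncomputable def size (n : ℕ) : ℝ := (n : ℝ) ^ 2 / ((n.totient : ℝ) * Real.log n ^ 2)

/-- Lower density of a set of positive integers. -/
noncomputable def lowerDensity (S : Set ℕ) : ℝ :=
  liminf (fun N : ℕ => (Set.ncard {n : ℕ | 1 ≤ n ∧ n ≤ N ∧ n ∈ S} : ℝ) / N) atTop

/-- The `n ≡ c (mod W)` with at least one representation. -/
def sums (A B : Set ℕ) (W c : ℕ) : Set ℕ := {n : ℕ | n ≡ c [MOD W] ∧ 0 < repsIn A B n}

/-- The `n ≡ c (mod W)` with at least `κ * size n` representations. -/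
def rich (κ : ℝ) (A B : Set ℕ) (W c : ℕ) : Set ℕ :=
  {n : ℕ | n ≡ c [MOD W] ∧ κ * size n ≤ repsIn A B n}

/-- The infimum of the lower density of `sums A B W c` over all sets `A`, `B` with lower profiles
`u`, `v`. -/
noncomputable def leastSum (W c : ℕ) (u v : ℕ → ℝ) : ℝ :=
  sInf {d : ℝ | ∃ A B : Set ℕ, LowerProfile A W u ∧ LowerProfile B W v ∧
    d = lowerDensity (sums A B W c)}

/-- The infimum of the lower density of `rich κ A B W c` over the same pairs. -/
noncomputable def leastRich (κ : ℝ) (W c : ℕ) (u v : ℕ → ℝ) : ℝ :=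
  sInf {d : ℝ | ∃ A B : Set ℕ, LowerProfile A W u ∧ LowerProfile B W v ∧
    d = lowerDensity (rich κ A B W c)}

/-- The residues `r` modulo `W` such that `r` and `c - r` are coprime to `W`. -/
def admissible (W c : ℕ) : Finset ℕ :=
  (Finset.range W).filter (fun r => r.Coprime W ∧ (c + W - r).Coprime W)

/-- The largest value of `min 1 (u r + v (c - r))` over the admissible `r` for which `u r` and
`v (c - r)` are positive; `0` if there is no such `r`. -/
noncomputable def best (W c : ℕ) (u v : ℕ → ℝ) : ℝ :=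
  sSup {m : ℝ | ∃ r ∈ admissible W c, 0 < u r ∧ 0 < v ((c + W - r) % W) ∧
    m = min 1 (u r + v ((c + W - r) % W))}

/-- The set of the numbers `p` such that the distance of `√2 p` from the nearest integer is less
than `u (p mod W) / 2`. -/
def star (W : ℕ) (u : ℕ → ℝ) : Set ℕ :=
  {p : ℕ | |Real.sqrt 2 * p - round (Real.sqrt 2 * p)| < u (p % W) / 2}

private theorem reps_eq (A B : Set ℕ) (n : ℕ) :
    repsIn A B n = Pool.Agent.Lib.MP_629a14_nt.Sm.repsIn A B n := by
  classical
  unfold repsIn Pool.Agent.Lib.MP_629a14_nt.Sm.repsIn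
  rw [← Set.ncard_coe_finset]
  congr 1
  ext p
  simp only [Set.mem_ofPred_eq, Finset.coe_filter, Finset.mem_range]
  constructor
  · rintro ⟨h1, h2⟩
    exact ⟨by omega, h2⟩
  · rintro ⟨h1, h2⟩
    exact ⟨by omega, h2⟩

private theorem sums_eq (A B : Set ℕ) (W c : ℕ) : lowerDensity (sums A B W c) =
    Pool.Agent.Lib.MP_629a14_nt.Kp.R.Mp.ldens
      (Pool.Agent.Lib.MP_629a14_nt.Kp.R.Mp.sums A B W c) := by
  have h : sums A B W c = Pool.Agent.Lib.MP_629a14_nt.Kp.R.Mp.sums A B W c := by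
    unfold sums Pool.Agent.Lib.MP_629a14_nt.Kp.R.Mp.sums
    simp only [reps_eq]
  rw [h]
  rfl

private theorem rich_eq (κ : ℝ) (A B : Set ℕ) (W c : ℕ) : lowerDensity (rich κ A B W c) =
    Pool.Agent.Lib.MP_629a14_nt.Kp.R.Mp.ldens
      (Pool.Agent.Lib.MP_629a14_nt.Kp.R.Mp.rich κ A B W c) := by
  have h : rich κ A B W c = Pool.Agent.Lib.MP_629a14_nt.Kp.R.Mp.rich κ A B W c := by
    unfold rich Pool.Agent.Lib.MP_629a14_nt.Kp.R.Mp.rich
    simp only [reps_eq]
    rfl
  rw [h]
  rfl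

private theorem best_eq (W c : ℕ) (u v : ℕ → ℝ) :
    best W c u v = Pool.Agent.Lib.MP_629a14_nt.Kp.R.Mp.best W c u v := rfl

private theorem ratio_bdd (A : Set ℕ) (q a x : ℕ) :
    0 ≤ (primesIn A q a x : ℝ) / primesIn Set.univ q a x ∧
      (primesIn A q a x : ℝ) / primesIn Set.univ q a x ≤ 1 := by
  refine ⟨div_nonneg (Nat.cast_nonneg _) (Nat.cast_nonneg _),
    div_le_one_of_le₀ ?_ (Nat.cast_nonneg _)⟩
  have h : primesIn A q a x ≤ primesIn Set.univ q a x := by
    refine Set.ncard_le_ncard (fun p hp => ?_) ((Set.finite_Iic x).subset fun p hp => hp.1)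
    exact ⟨hp.1, hp.2.1, Set.mem_univ _, hp.2.2.2⟩
  exact_mod_cast h

private theorem low_of {A : Set ℕ} {W : ℕ} {u : ℕ → ℝ} (h : LowerProfile A W u) :
    Pool.Agent.Lib.MP_629a14_nt.Kp.R.Mp.Low A W u := by
  intro q a hq hWq ha ε hε
  have h1 := h q a hq hWq ha
  have h2 : u (a % W) - ε <
      liminf (fun x : ℕ => (primesIn A q a x : ℝ) / primesIn Set.univ q a x) atTop := by
    linarith
  have h3 := eventually_lt_of_lt_liminf h2
    (isBoundedUnder_of ⟨0, fun x => (ratio_bdd A q a x).1⟩)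
  filter_upwards [h3] with x hx
  show (u (a % W) - ε) * (primesIn Set.univ q a x : ℝ) ≤ primesIn A q a x
  rcases Nat.eq_zero_or_pos (primesIn Set.univ q a x) with h4 | h4
  · rw [h4, Nat.cast_zero, mul_zero]
    exact Nat.cast_nonneg _
  · have h5 : (0 : ℝ) < primesIn Set.univ q a x := by exact_mod_cast h4
    rw [lt_div_iff₀ h5] at hx
    exact hx.le

private theorem star_prof {W : ℕ} {u : ℕ → ℝ} (hW : 1 ≤ W)
    (hu : ∀ r, r < W → r.Coprime W → 0 ≤ u r ∧ u r ≤ 1) : LowerProfile (star W u) W u := by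
  intro q a hq hWq ha
  have h1 := Pool.Agent.Lib.MP_629a14_nt.Kp.star_profile hW hu q a hq hWq ha
  exact le_of_eq h1.liminf_eq.symm

/-- Let `W ≥ 1` and `c` be even and let `u`, `v` be functions on the reduced residues modulo `W` with
values in `[0, 1]`. Consider all pairs of sets `A`, `B` such that the primes in `A`, in `B` have lower
densities at least `u (a mod W)`, `v (a mod W)` relative to the primes of the class `a` modulo `q`, for
every multiple `q` of `W` and every `a` coprime to `q`. The infimum of the lower density of the set of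
the `n ≡ c (mod W)` which are the sum of a prime in `A` and a prime in `B` is `best W c u v / W`. It is
attained by `star W u`, `star W v`. It is also the limit for `κ → 0+` of the infimum of the lower
density of the set of the `n ≡ c (mod W)` with at least `κ n^2 / (φ(n) log^2 n)` representations. -/
theorem result (W : ℕ) (hW1 : 1 ≤ W) (hW2 : Even W) (c : ℕ) (hc : Even c) (u v : ℕ → ℝ)
    (h : ∀ r : ℕ, r < W → r.Coprime W → 0 ≤ u r ∧ u r ≤ 1 ∧ 0 ≤ v r ∧ v r ≤ 1) :
    leastSum W c u v = best W c u v / W ∧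
    LowerProfile (star W u) W u ∧ LowerProfile (star W v) W v ∧
    lowerDensity (sums (star W u) (star W v) W c) = best W c u v / W ∧
    Tendsto (fun κ : ℝ => leastRich κ W c u v) (𝓝[>] 0) (𝓝 (best W c u v / W)) := by
  have hu : ∀ r : ℕ, r < W → r.Coprime W → 0 ≤ u r ∧ u r ≤ 1 :=
    fun r hr hr' => ⟨(h r hr hr').1, (h r hr hr').2.1⟩
  have hv : ∀ r : ℕ, r < W → r.Coprime W → 0 ≤ v r ∧ v r ≤ 1 :=
    fun r hr hr' => ⟨(h r hr hr').2.2.1, (h r hr hr').2.2.2⟩
  have hrg := fun ε hε => Pool.Agent.Lib.MP_629a14_nt.Kp.R.Mp.rich_ge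
    Pool.Agent.Lib.MP_629a14_nt.Mn.robust_mann hW1 hW2.two_dvd hc.two_dvd hu hv ε hε
  have hsu := star_prof hW1 hu
  have hsv := star_prof hW1 hv
  -- the sums are more than the rich numbers
  have hsr : ∀ κ : ℝ, 0 < κ → ∀ A B : Set ℕ, lowerDensity (rich κ A B W c) ≤
      lowerDensity (sums A B W c) := by
    intro κ hκ A B
    rw [rich_eq, sums_eq]
    exact Pool.Agent.Lib.MP_629a14_nt.Kp.R.Mp.ldens_mono fun n hn hn' =>
      Pool.Agent.Lib.MP_629a14_nt.Kp.R.Mp.rich_sub hκ A B hW2.two_dvd hc.two_dvd hn hn'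
  have hlow : ∀ A B : Set ℕ, LowerProfile A W u → LowerProfile B W v →
      best W c u v / W ≤ lowerDensity (sums A B W c) := by
    intro A B hA hB
    refine le_of_forall_pos_le_add fun ε hε => ?_
    obtain ⟨κ, hκ, h1⟩ := hrg ε hε
    have h2 := h1 A B (low_of hA) (low_of hB)
    rw [← best_eq, ← rich_eq] at h2
    linarith [hsr κ hκ A B]
  have hup : lowerDensity (sums (star W u) (star W v) W c) ≤ best W c u v / W := by
    rw [sums_eq]
    exact Pool.Agent.Lib.MP_629a14_nt.Kp.R.Mp.star_up hW1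
  have hstar : lowerDensity (sums (star W u) (star W v) W c) = best W c u v / W :=
    le_antisymm hup (hlow _ _ hsu hsv)
  refine ⟨?_, hsu, hsv, hstar, ?_⟩
  · unfold leastSum
    refine le_antisymm ?_ ?_
    · refine csInf_le ⟨best W c u v / W, ?_⟩ ⟨_, _, hsu, hsv, hstar.symm⟩
      rintro d ⟨A, B, hA, hB, rfl⟩
      exact hlow A B hA hB
    · refine le_csInf ⟨_, _, _, hsu, hsv, rfl⟩ ?_
      rintro d ⟨A, B, hA, hB, rfl⟩
      exact hlow A B hA hB
  · have hne : ∀ κ : ℝ, {d : ℝ | ∃ A B : Set ℕ, LowerProfile A W u ∧ LowerProfile B W v ∧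
        d = lowerDensity (rich κ A B W c)}.Nonempty := fun κ => ⟨_, _, _, hsu, hsv, rfl⟩
    have hbd : ∀ κ : ℝ, BddBelow {d : ℝ | ∃ A B : Set ℕ, LowerProfile A W u ∧
        LowerProfile B W v ∧ d = lowerDensity (rich κ A B W c)} := by
      refine fun κ => ⟨0, ?_⟩
      rintro d ⟨A, B, -, -, rfl⟩
      rw [rich_eq]
      exact Pool.Agent.Lib.MP_629a14_nt.Kp.R.Mp.ldens_nonneg _
    rw [Metric.tendsto_nhdsWithin_nhds]
    intro ε hε
    obtain ⟨κ₀, hκ₀, h1⟩ := hrg (ε / 2) (by positivity)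
    refine ⟨κ₀, hκ₀, fun {κ} hκ hκ' => ?_⟩
    have hκ0 : 0 < κ := hκ
    rw [Real.dist_eq, sub_zero, abs_of_pos hκ0] at hκ'
    rw [Real.dist_eq, abs_lt]
    constructor
    · have h2 : best W c u v / W - ε / 2 ≤ leastRich κ W c u v := by
        refine le_csInf (hne κ) ?_
        rintro d ⟨A, B, hA, hB, rfl⟩
        have h3 := h1 A B (low_of hA) (low_of hB)
        rw [← best_eq] at h3
        refine h3.trans ?_
        rw [rich_eq]
        exact Pool.Agent.Lib.MP_629a14_nt.Kp.R.Mp.ldens_mono fun n _ hn =>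
          Pool.Agent.Lib.MP_629a14_nt.Kp.R.Mp.rich_anti hκ'.le A B W c hn
      linarith
    · have h2 : leastRich κ W c u v ≤ best W c u v / W := by
        refine (csInf_le (hbd κ) ⟨_, _, hsu, hsv, rfl⟩).trans ?_
        exact (hsr κ hκ0 _ _).trans hup
      linarith

end Pool.Agent.Lib.MP_629a14_nt.Old.MannPrimes
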