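import Pool.Agent.Lib.MP_629a14_nt.ScalesC

namespace Pool.Agent.Lib.MP_629a14_nt.Old.PrimeModuli

open Finset Pool.Agent.Lib.MP_60b32f_nt Pool.Agent.Lib.MP_629a14_nt

/-- Let `α > 0`. There are `c > 0`, `K` and `x₀` such that for every `x ≥ x₀` and all sets `A`, `B`
of primes up to `x / 2`, each containing at least `α π(x/2)` of them, there is a finite set `E` of
naturals, with `#(E ∩ [0, Q]) log (2 + x / (Q log x)²) ≤ K (log x) (1 + Q² / x)` for every `Q`,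
such that for every prime `q ≤ x` outside `E` and every `b`, at least `c x / q` even numbers
`n ≤ x` with `n ≡ b (mod q)` have at least `c (n / φ(n)) (n / log² n)` representations
`n = p₁ + p₂` with `p₁ ∈ A`, `p₂ ∈ B`. -/
theorem result (α : ℝ) (hα : 0 < α) :
    ∃ c : ℝ, 0 < c ∧ ∃ K : ℝ, ∃ x₀ : ℕ, ∀ x : ℕ, x₀ ≤ x → ∀ A B : Finset ℕ,
      (∀ p ∈ A, p.Prime ∧ p ≤ x / 2) → (∀ p ∈ B, p.Prime ∧ p ≤ x / 2) →
      α * (Nat.primeCounting (x / 2) : ℝ) ≤ (A.card : ℝ) →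
      α * (Nat.primeCounting (x / 2) : ℝ) ≤ (B.card : ℝ) →
      ∃ E : Finset ℕ,
        (∀ Q : ℕ, ((E.filter (fun q => q ≤ Q)).card : ℝ) *
            Real.log (2 + (x : ℝ) / ((Q : ℝ) * Real.log (x : ℝ)) ^ 2) ≤
          K * Real.log (x : ℝ) * (1 + (Q : ℝ) ^ 2 / (x : ℝ))) ∧
        ∀ q : ℕ, q.Prime → q ≤ x → q ∉ E → ∀ b : ℕ,
          c * x / q ≤ (((Icc 1 x).filter (fun n => Even n ∧ n ≡ b [MOD q] ∧
            c * (((n : ℝ) / (Nat.totient n : ℝ)) * ((n : ℝ) / (Real.log (n : ℝ)) ^ 2)) ≤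
              (((A ×ˢ B).filter (fun y => y.1 + y.2 = n)).card : ℝ))).card : ℝ) := by
  obtain ⟨c, hc, K, hK, x₀, h⟩ := scales_main (α / 6) (by positivity)
  refine ⟨c, hc, K, max x₀ 224, fun x hx A B hA hB hAc hBc => ?_⟩
  have hx0 : x₀ ≤ x := (le_max_left _ _).trans hx
  have hx224 : 224 ≤ x := (le_max_right _ _).trans hx
  have hpi : (x : ℝ) / 6 / Real.log x ≤ (Nat.primeCounting (x / 2) : ℝ) := by
    have hm : 112 ≤ x / 2 := by omega
    have h2 := primeCounting_ge (x / 2) hm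
    have hx3 : (x : ℝ) / 3 ≤ ((x / 2 : ℕ) : ℝ) := by
      have : x ≤ 3 * (x / 2) := by omega
      have h' : (x : ℝ) ≤ 3 * ((x / 2 : ℕ) : ℝ) := by exact_mod_cast this
      linarith
    have hxr : (224 : ℝ) ≤ x := by exact_mod_cast hx224
    have hm0 : (112 : ℝ) ≤ ((x / 2 : ℕ) : ℝ) := by exact_mod_cast hm
    have hlogm : 0 < Real.log ((x / 2 : ℕ) : ℝ) := Real.log_pos (by linarith)
    have hlog : Real.log ((x / 2 : ℕ) : ℝ) ≤ Real.log x := by
      apply Real.log_le_log (by linarith)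
      exact_mod_cast Nat.div_le_self x 2
    refine le_trans ?_ h2
    calc (x : ℝ) / 6 / Real.log x = (x : ℝ) / 3 / 2 / Real.log x := by ring
      _ ≤ ((x / 2 : ℕ) : ℝ) / 2 / Real.log ((x / 2 : ℕ) : ℝ) := by gcongr
  have hdens : ∀ P : Finset ℕ, α * (Nat.primeCounting (x / 2) : ℝ) ≤ (P.card : ℝ) →
      α / 6 * x / Real.log x ≤ (P.card : ℝ) := by
    intro P hP
    refine le_trans ?_ hP
    calc α / 6 * x / Real.log x = α * ((x : ℝ) / 6 / Real.log x) := by ring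
      _ ≤ α * (Nat.primeCounting (x / 2) : ℝ) := by gcongr
  exact h x hx0 A B (fun p hp => ⟨(hA p hp).1, by have := (hA p hp).2; omega⟩)
    (fun p hp => ⟨(hB p hp).1, by have := (hB p hp).2; omega⟩) (hdens A hAc) (hdens B hBc)

end Pool.Agent.Lib.MP_629a14_nt.Old.PrimeModuli
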