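import Mathlib
import Pool.Agent.Lib.MP_629a14_nt.RatioMoment

set_option autoImplicit false

namespace Pool.Agent.Lib.MP_629a14_nt.Old.PseudorandomSets

open Finset
open Pool.Agent.Lib.MP_629a14_nt (bilinear sum_ee_range rt one_le_rt sdiv_le_rt sum_rt_pow_le)
open Pool.Agent.Lib.MP_60b32f_nt (rep rep_uniform log_sq_le sdiv sdiv_pos)

/-- The additive character exp(2 pi i t). -/
noncomputable def ee (t : ℝ) : ℂ := Complex.exp (2 * Real.pi * t * Complex.I)

/-- The even integers from 1 to N. -/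
def evens (N : ℕ) : Finset ℕ := (Icc 1 N).filter Even

/-- The set S consists of even integers in [1,N], and every exponential sum over S differs from
the one over all even integers in [1,N], rescaled by the relative density of S, by at most
eta times the cardinality of S. -/
def FourierUniform (N : ℕ) (S : Finset ℕ) (η : ℝ) : Prop :=
  S ⊆ evens N ∧ ∀ t : ℝ,
    ‖∑ n ∈ S, ee (t * n) - ((S.card : ℂ) / ((evens N).card : ℂ)) * ∑ n ∈ evens N, ee (t * n)‖
      ≤ η * S.card

/-- The number of pairs (a,b) with a in A, b in B and a + b = n. -/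
def repAB (A B : Finset ℕ) (n : ℕ) : ℕ := ((A ×ˢ B).filter (fun ab => ab.1 + ab.2 = n)).card

/-- The even integers n in S with at least kappa n^2 / (phi(n) (log n)^2) representations as the
sum of an element of A and an element of B. -/
noncomputable def goodSet (A B S : Finset ℕ) (κ : ℝ) : Finset ℕ :=
  S.filter (fun n => κ * ((n : ℝ) ^ 2 / ((n.totient : ℝ) * (Real.log n) ^ 2)) ≤ (repAB A B n : ℝ))

theorem ee_eq (t : ℝ) : ee t = Pool.Agent.Lib.MP_629a14_nt.ee t := rfl

theorem card_evens (N : ℕ) : (evens N).card = N / 2 := by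
  have h : evens N = (range (N / 2)).image (fun k => 2 * (k + 1)) := by
    ext n
    simp only [evens, mem_filter, mem_Icc, mem_image, mem_range]
    constructor
    · rintro ⟨⟨h1, h2⟩, k, hk⟩
      exact ⟨k - 1, by omega, by omega⟩
    · rintro ⟨k, hk, rfl⟩
      refine ⟨by omega, k + 1, by omega⟩
  rw [h, card_image_of_injective, card_range]
  intro a b hab
  simp only at hab
  omega

theorem card_mul_le {N : ℕ} (hN : 3 ≤ N) : (N : ℝ) ≤ 3 * ((evens N).card : ℝ) ∧
    2 * ((evens N).card : ℝ) ≤ N := by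
  rw [card_evens]
  constructor
  · have : N ≤ 3 * (N / 2) := by omega
    exact_mod_cast this
  · have : 2 * (N / 2) ≤ N := by omega
    exact_mod_cast this

/-- Divisibility counts in uniform sets. -/
theorem count_dvd {N : ℕ} (hN : 3 ≤ N) {S : Finset ℕ} {η : ℝ} (hS : FourierUniform N S η)
    (d : ℕ) (hd : 0 < d) :
    ((S.filter (fun n => d ∣ n)).card : ℝ) ≤ 3 * S.card / d + η * S.card := by
  have hd0 : (0 : ℝ) < d := by exact_mod_cast hd
  obtain ⟨hM1, hM2⟩ := card_mul_le hN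
  have hN0 : (3 : ℝ) ≤ N := by exact_mod_cast hN
  have hM : (0 : ℝ) < (evens N).card := by linarith
  have key : ∀ T : Finset ℕ, (((T.filter (fun n => d ∣ n)).card : ℝ) : ℂ) * d =
      ∑ h ∈ range d, ∑ n ∈ T, ee ((h : ℝ) / d * n) := by
    intro T
    rw [sum_comm]
    have h1 : ∀ n ∈ T, ∑ h ∈ range d, ee ((h : ℝ) / d * n) = if d ∣ n then (d : ℂ) else 0 := by
      intro n _
      have h2 := sum_ee_range d hd n
      have h3 : ∀ h ∈ range d, ee ((h : ℝ) / d * n) =
          Pool.Agent.Lib.MP_629a14_nt.ee ((h : ℝ) * (((n : ℤ) : ℝ) / d)) := by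
        intro h _
        rw [ee_eq]
        congr 1
        push_cast
        ring
      rw [sum_congr rfl h3, h2]
      simp only [Int.natCast_dvd_natCast]
    rw [sum_congr rfl h1, ← sum_filter, sum_const, nsmul_eq_mul]
    push_cast
    rfl
  set σ : ℝ := (S.card : ℝ) / (evens N).card with hσ
  have hdiff : ‖((((S.filter (fun n => d ∣ n)).card : ℝ) -
      σ * (((evens N).filter (fun n => d ∣ n)).card : ℝ) : ℝ) : ℂ) * d‖ ≤ d * (η * S.card) := by
    have h1 : ((((S.filter (fun n => d ∣ n)).card : ℝ) -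
      σ * (((evens N).filter (fun n => d ∣ n)).card : ℝ) : ℝ) : ℂ) * d =
      ∑ h ∈ range d, (∑ n ∈ S, ee ((h : ℝ) / d * n) -
        ((S.card : ℂ) / ((evens N).card : ℂ)) * ∑ n ∈ evens N, ee ((h : ℝ) / d * n)) := by
      rw [sum_sub_distrib, ← mul_sum, ← key, ← key, hσ]
      push_cast
      ring
    rw [h1]
    refine (norm_sum_le _ _).trans ?_
    calc ∑ h ∈ range d, ‖∑ n ∈ S, ee ((h : ℝ) / d * n) -
        ((S.card : ℂ) / ((evens N).card : ℂ)) * ∑ n ∈ evens N, ee ((h : ℝ) / d * n)‖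
        ≤ ∑ h ∈ range d, η * S.card := sum_le_sum fun h _ => hS.2 _
      _ = d * (η * S.card) := by rw [sum_const, card_range, nsmul_eq_mul]
  rw [norm_mul, Complex.norm_real, Complex.norm_natCast, Real.norm_eq_abs] at hdiff
  have h2 : |((S.filter (fun n => d ∣ n)).card : ℝ) -
      σ * (((evens N).filter (fun n => d ∣ n)).card : ℝ)| ≤ η * S.card := by
    rw [mul_comm] at hdiff
    exact le_of_mul_le_mul_left hdiff hd0
  have h3 := (abs_le.1 h2).2
  have h4 : (((evens N).filter (fun n => d ∣ n)).card : ℝ) ≤ (N : ℝ) / d := by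
    have h5 : ((evens N).filter (fun n => d ∣ n)).card ≤ N / d := by
      calc ((evens N).filter (fun n => d ∣ n)).card ≤ ((Ioc 0 N).filter (fun n => d ∣ n)).card := by
            apply card_le_card
            intro n hn
            simp only [evens, mem_filter, mem_Icc, mem_Ioc] at hn ⊢
            exact ⟨⟨by omega, hn.1.1.2⟩, hn.2⟩
        _ = N / d := Nat.Ioc_filter_dvd_card_eq_div N d
    exact (by exact_mod_cast h5 : (((evens N).filter (fun n => d ∣ n)).card : ℝ) ≤
      ((N / d : ℕ) : ℝ)).trans Nat.cast_div_le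
  have hσ0 : 0 ≤ σ := by positivity
  have h5 : σ * (((evens N).filter (fun n => d ∣ n)).card : ℝ) ≤ 3 * S.card / d := by
    calc σ * (((evens N).filter (fun n => d ∣ n)).card : ℝ) ≤ σ * ((N : ℝ) / d) := by gcongr
      _ = (S.card : ℝ) * (N / (evens N).card) / d := by rw [hσ]; field_simp
      _ ≤ (S.card : ℝ) * 3 / d := by
          gcongr
          rw [div_le_iff₀ hM]
          exact hM1
      _ = 3 * S.card / d := by ring
  linarith

theorem log_pow_le (Y : ℕ) : (Real.log Y) ^ 4 ≤ 256 * Y := by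
  have h1 : Real.log Y ≤ (Y : ℝ) ^ (1 / 4 : ℝ) / (1 / 4 : ℝ) :=
    Real.log_le_rpow_div (Nat.cast_nonneg Y) (by norm_num)
  have h0 : 0 ≤ Real.log Y := Real.log_natCast_nonneg Y
  have h2 : ((Y : ℝ) ^ (1 / 4 : ℝ)) ^ 4 = Y := by
    rw [← Real.rpow_natCast, ← Real.rpow_mul (Nat.cast_nonneg Y)]
    norm_num
  calc (Real.log Y) ^ 4 ≤ ((Y : ℝ) ^ (1 / 4 : ℝ) / (1 / 4 : ℝ)) ^ 4 := by gcongr
    _ = 256 * ((Y : ℝ) ^ (1 / 4 : ℝ)) ^ 4 := by ring
    _ = 256 * Y := by rw [h2]

/-- The constant in the fourth moment bound. -/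
noncomputable def C2 : ℝ := Real.exp 12 * (3 * Real.exp (4 * Real.exp 2) + 1280 * Real.exp 16)

theorem one_le_C2 : 1 ≤ C2 := by
  unfold C2
  have h1 : (1 : ℝ) ≤ Real.exp 12 := Real.one_le_exp (by norm_num)
  have h2 : (1 : ℝ) ≤ Real.exp 16 := Real.one_le_exp (by norm_num)
  have h3 : (0 : ℝ) < Real.exp (4 * Real.exp 2) := Real.exp_pos _
  nlinarith

theorem one_le_log {N : ℕ} (hN : 3 ≤ N) : 1 ≤ Real.log N := by
  rw [Real.le_log_iff_exp_le (by positivity)]
  have h1 := Real.exp_one_lt_d9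
  have h2 : (3 : ℝ) ≤ N := by exact_mod_cast hN
  linarith

theorem moment {N : ℕ} (hN : 3 ≤ N) {S : Finset ℕ} {η : ℝ} (hS : FourierUniform N S η)
    (hη : 0 ≤ η) (hη1 : η ≤ 1 / Real.log N) : ∑ n ∈ S, (rt n) ^ 4 ≤ C2 * S.card := by
  have hL := one_le_log hN
  set L := Real.log N with hLdef
  set Y : ℕ := ⌈L⌉₊ + 2 with hY
  have hYL : L ≤ Y := by
    have := Nat.le_ceil L
    rw [hY]; push_cast; linarith
  have hYu : (Y : ℝ) ≤ 5 * L := by
    have := Nat.ceil_lt_add_one (show 0 ≤ L by linarith)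
    rw [hY]; push_cast; linarith
  have h := sum_rt_pow_le S Y (by omega) (fun n hn => by
      have h1 := hS.1 hn
      simp only [evens, mem_filter, mem_Icc] at h1
      refine ⟨by omega, le_trans ?_ hYL⟩
      apply Real.log_le_log
      · exact_mod_cast (by omega : 0 < n)
      · exact_mod_cast h1.1.2) (3 * S.card) (η * S.card) (by positivity) (by positivity)
    (fun d hd => count_dvd hN hS d hd)
  refine h.trans ?_
  unfold C2
  have h2 : η * S.card * (Real.exp 16 * (Real.log Y) ^ 4) ≤ 1280 * Real.exp 16 * S.card := by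
    have h3 := log_pow_le Y
    calc η * S.card * (Real.exp 16 * (Real.log Y) ^ 4)
        ≤ (1 / L) * S.card * (Real.exp 16 * (256 * (5 * L))) := by
          gcongr
          exact h3.trans (by gcongr)
      _ = 1280 * Real.exp 16 * S.card := by
          field_simp
          ring
  calc Real.exp 12 * (3 * S.card * Real.exp (4 * Real.exp 2) +
        η * S.card * (Real.exp 16 * (Real.log Y) ^ 4))
      ≤ Real.exp 12 * (3 * S.card * Real.exp (4 * Real.exp 2) +
        1280 * Real.exp 16 * S.card) := by gcongr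
    _ = _ := by ring

theorem n_div_log {N n : ℕ} (hN : 3 ≤ N) (hn : 2 ≤ n) (hnN : n ≤ N) :
    (n : ℝ) / (Real.log n) ^ 2 ≤ 40 * (N / (Real.log N) ^ 2) := by
  have hL := one_le_log hN
  have hn2 : (2 : ℝ) ≤ n := by exact_mod_cast hn
  have hnN' : (n : ℝ) ≤ N := by exact_mod_cast hnN
  have hN3 : (3 : ℝ) ≤ N := by exact_mod_cast hN
  have hln : Real.log 2 ≤ Real.log n := Real.log_le_log (by norm_num) hn2
  have hl2 := Real.log_two_gt_d9
  by_cases h : (n : ℝ) ≤ Real.sqrt N
  · have h1 := log_sq_le N (by linarith)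
    have h2 : Real.sqrt N ≤ 16 * (N / (Real.log N) ^ 2) := by
      rw [mul_div_assoc', le_div_iff₀ (by positivity)]
      calc Real.sqrt N * (Real.log N) ^ 2 ≤ Real.sqrt N * (16 * Real.sqrt N) := by gcongr
        _ = 16 * (Real.sqrt N * Real.sqrt N) := by ring
        _ = 16 * N := by rw [Real.mul_self_sqrt (by linarith)]
    calc (n : ℝ) / (Real.log n) ^ 2 ≤ (n : ℝ) / (0.69 : ℝ) ^ 2 := by
          gcongr
          linarith
      _ ≤ (2.5 : ℝ) * (n : ℝ) := by
          rw [div_le_iff₀ (by norm_num)]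
          nlinarith
      _ ≤ (2.5 : ℝ) * (16 * (N / (Real.log N) ^ 2)) := by
          have := h.trans h2
          linarith
      _ = 40 * (N / (Real.log N) ^ 2) := by ring
  · push Not at h
    have h2 : (1 / 2) * Real.log N ≤ Real.log n := by
      have h3 := Real.log_le_log (by positivity) h.le
      rw [Real.log_sqrt (by linarith)] at h3
      linarith
    calc (n : ℝ) / (Real.log n) ^ 2 ≤ N / ((1 / 2) * Real.log N) ^ 2 := by gcongr
      _ = 4 * (N / (Real.log N) ^ 2) := by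
          field_simp
          norm_num
      _ ≤ 40 * (N / (Real.log N) ^ 2) := by
          have : 0 ≤ (N : ℝ) / (Real.log N) ^ 2 := by positivity
          linarith

theorem repAB_le (A B : Finset ℕ) (hA : ∀ p ∈ A, p.Prime) (hB : ∀ p ∈ B, p.Prime) (n : ℕ) :
    repAB A B n ≤ rep n := by
  unfold repAB rep
  apply card_le_card_of_injOn (fun y : ℕ × ℕ => y.1)
  · rintro ⟨p, q⟩ hpq
    simp only [coe_filter, mem_product, Set.mem_ofPred_eq, mem_range] at hpq ⊢
    obtain ⟨⟨hp, hq⟩, hsum⟩ := hpq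
    have hq' := hB q hq
    have := hq'.pos
    refine ⟨by omega, hA p hp, ?_⟩
    have : n - p = q := by omega
    rw [this]; exact hq'
  · rintro ⟨p, q⟩ hpq ⟨p', q'⟩ hpq' h
    simp only [coe_filter, mem_product, Set.mem_ofPred_eq] at hpq hpq' h
    ext
    · exact h
    · simp only; omega

/-- The final constant. -/
noncomputable def cc : ℝ := 1 / (4 * 73920 ^ 2 * C2)

theorem cc_pos : 0 < cc := by
  have := one_le_C2
  unfold cc
  positivity

theorem cc_mul : cc * (4 * 73920 ^ 2 * C2) = 1 := by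
  have := one_le_C2
  unfold cc
  field_simp

theorem cc_le : cc ≤ 1 := by
  have h1 := one_le_C2
  have h2 := cc_mul
  have h3 := cc_pos
  nlinarith

theorem main {N : ℕ} (hN : 3 ≤ N) {α : ℝ} (hα : 0 < α) (hα1 : α ≤ 1) (A B S : Finset ℕ)
    (hA : ∀ p ∈ A, p.Prime ∧ p ≠ 2 ∧ 2 * p ≤ N) (hB : ∀ p ∈ B, p.Prime ∧ p ≠ 2 ∧ 2 * p ≤ N)
    (hAB : (α * (N / Real.log N)) ^ 2 ≤ (A.card : ℝ) * B.card)
    (hS : FourierUniform N S (cc * α / Real.log N)) :
    cc * α ^ 4 * S.card ≤ ((goodSet A B S (cc * α ^ 2)).card : ℝ) := by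
  have hL := one_le_log hN
  have hN3 : (3 : ℝ) ≤ N := by exact_mod_cast hN
  obtain ⟨hM1, hM2⟩ := card_mul_le hN
  have hM : (0 : ℝ) < (evens N).card := by linarith
  have hc0 := cc_pos
  have hc1 := cc_le
  have hC2 := one_le_C2
  set L := Real.log N with hLdef
  set η : ℝ := cc * α / L with hη
  have hη0 : 0 ≤ η := by positivity
  have hη1 : η ≤ 1 / L := by
    rw [hη]
    gcongr
    nlinarith
  have hmom := moment hN hS hη0 hη1
  -- geometric mean
  set g : ℝ := Real.sqrt (A.card * B.card) with hg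
  have hgsq : g ^ 2 = (A.card : ℝ) * B.card := by rw [hg, Real.sq_sqrt (by positivity)]
  have hgl : α * (N / L) ≤ g := by
    rw [hg]
    exact Real.le_sqrt_of_sq_le hAB
  have hg0 : 0 ≤ g := Real.sqrt_nonneg _
  -- the bilinear bound
  set σ : ℝ := (S.card : ℝ) / (evens N).card with hσ
  have hSE : S ⊆ evens N := hS.1
  have hbil := bilinear (evens N) A B (fun n => (if n ∈ S then (1 : ℂ) else 0) - (σ : ℂ)) N
    (fun n hn => by simp only [evens, mem_filter, mem_Icc] at hn; exact hn.1.2)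
    (fun a ha => by have := (hA a ha).2.2; omega) (fun b hb => by have := (hB b hb).2.2; omega)
    (η * S.card) (by
      intro t
      have h1 : ∑ n ∈ evens N, ((if n ∈ S then (1 : ℂ) else 0) - (σ : ℂ)) *
          Pool.Agent.Lib.MP_629a14_nt.ee (t * n) = ∑ n ∈ S, ee (t * n) -
          ((S.card : ℂ) / ((evens N).card : ℂ)) * ∑ n ∈ evens N, ee (t * n) := by
        simp_rw [sub_mul]
        rw [sum_sub_distrib, ← mul_sum]
        congr 1
        · simp_rw [ite_mul, one_mul, zero_mul]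
          rw [← sum_filter]
          apply sum_congr _ (fun _ _ => rfl)
          ext n
          rw [mem_filter]
          exact ⟨fun h => h.2, fun h => ⟨hSE h, h⟩⟩
        · rw [hσ]
          push_cast
          rfl
      rw [h1]
      exact hS.2 t)
  have hsumE : ∑ n ∈ evens N, (repAB A B n : ℝ) = (A.card : ℝ) * B.card := by
    have h1 : ∑ n ∈ evens N, repAB A B n = (A ×ˢ B).card := by
      unfold repAB
      symm
      apply card_eq_sum_card_fiberwise
      rintro ⟨a, b⟩ hab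
      simp only [coe_product, Set.mem_prod, mem_coe] at hab
      have h2 := hA a hab.1
      have h3 := hB b hab.2
      simp only [evens, coe_filter, mem_Icc, Set.mem_ofPred_eq]
      have h4 := h2.1.pos
      refine ⟨by omega, ?_⟩
      exact (h2.1.odd_of_ne_two h2.2.1).add_odd (h3.1.odd_of_ne_two h3.2.1)
    rw [card_product] at h1
    exact_mod_cast h1
  have hreal : ∑ n ∈ evens N, ((if n ∈ S then (1 : ℂ) else 0) - (σ : ℂ)) *
      (Pool.Agent.Lib.MP_629a14_nt.repAB A B n : ℂ) =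
      ((∑ n ∈ S, (repAB A B n : ℝ) - σ * ((A.card : ℝ) * B.card) : ℝ) : ℂ) := by
    rw [← hsumE]
    push_cast
    simp_rw [sub_mul]
    rw [sum_sub_distrib, ← mul_sum]
    congr 1
    simp_rw [ite_mul, one_mul, zero_mul]
    rw [← sum_filter]
    apply sum_congr _ (fun _ _ => rfl)
    ext n
    rw [mem_filter]
    exact ⟨fun h => h.2, fun h => ⟨hSE h, h⟩⟩
  rw [hreal, Complex.norm_real, Real.norm_eq_abs] at hbil
  have hlow := (abs_le.1 hbil).1
  have hSc : (0 : ℝ) ≤ S.card := Nat.cast_nonneg _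
  -- first moment over S
  have hfirst : S.card * (α ^ 2 * (N / L ^ 2)) ≤ ∑ n ∈ S, (repAB A B n : ℝ) := by
    have h1 : 2 * (S.card : ℝ) / N ≤ σ := by
      rw [hσ, div_le_div_iff₀ (by linarith) hM]
      nlinarith
    have h2 : η ≤ g / N := by
      rw [le_div_iff₀ (by linarith)]
      calc η * N = cc * (α * (N / L)) := by rw [hη]; ring
        _ ≤ 1 * (α * (N / L)) := by gcongr
        _ ≤ g := by linarith
    have h3 : η * S.card * g ≤ (S.card : ℝ) / N * g ^ 2 := by
      calc η * S.card * g ≤ (g / N) * S.card * g := by gcongr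
        _ = (S.card : ℝ) / N * g ^ 2 := by ring
    have h4 : 2 * ((S.card : ℝ) / N * g ^ 2) ≤ σ * ((A.card : ℝ) * B.card) := by
      rw [← hgsq]
      calc 2 * ((S.card : ℝ) / N * g ^ 2) = 2 * (S.card : ℝ) / N * g ^ 2 := by ring
        _ ≤ σ * g ^ 2 := by gcongr
    have h5 : S.card * (α ^ 2 * (N / L ^ 2)) ≤ (S.card : ℝ) / N * g ^ 2 := by
      calc S.card * (α ^ 2 * (N / L ^ 2)) = (S.card : ℝ) / N * (α * (N / L)) ^ 2 := by
            field_simp
        _ ≤ (S.card : ℝ) / N * g ^ 2 := by gcongr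
    linarith
  -- pointwise upper bound
  have hup : ∀ n ∈ S, (repAB A B n : ℝ) ≤ 73920 * (N / L ^ 2) * (rt n) ^ 2 := by
    intro n hn
    have h1 := hSE hn
    simp only [evens, mem_filter, mem_Icc] at h1
    have h2 : (repAB A B n : ℝ) ≤ (rep n : ℝ) := by
      exact_mod_cast repAB_le A B (fun p hp => (hA p hp).1) (fun p hp => (hB p hp).1) n
    have h3 := rep_uniform N n h1.1.1 h1.1.2 (by omega)
    have h4 := sdiv_le_rt n (by omega)
    have h5 := sdiv_pos n (by omega)
    calc (repAB A B n : ℝ) ≤ 73920 * (N / L ^ 2) * (sdiv n) ^ 2 := h2.trans h3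
      _ ≤ 73920 * (N / L ^ 2) * (rt n) ^ 2 := by gcongr
  set G := goodSet A B S (cc * α ^ 2) with hG
  -- bad part
  have hbad : ∑ n ∈ S.filter (fun n : ℕ => ¬ cc * α ^ 2 * ((n : ℝ) ^ 2 / ((n.totient : ℝ) *
      (Real.log n) ^ 2)) ≤ (repAB A B n : ℝ)), (repAB A B n : ℝ) ≤
      (1 / 2) * (S.card * (α ^ 2 * (N / L ^ 2))) := by
    have h1 : ∀ n ∈ S.filter (fun n : ℕ => ¬ cc * α ^ 2 * ((n : ℝ) ^ 2 / ((n.totient : ℝ) *
        (Real.log n) ^ 2)) ≤ (repAB A B n : ℝ)), (repAB A B n : ℝ) ≤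
        cc * α ^ 2 * (40 * (N / L ^ 2)) * (rt n) ^ 4 := by
      intro n hn
      rw [mem_filter, not_le] at hn
      have h1 := hSE hn.1
      simp only [evens, mem_filter, mem_Icc] at h1
      have hn2 : 2 ≤ n := by
        obtain ⟨k, hk⟩ := h1.2
        omega
      have h3 := n_div_log hN hn2 h1.1.2
      have h4 := one_le_rt n (by omega)
      have h5 : (n : ℝ) ^ 2 / ((n.totient : ℝ) * (Real.log n) ^ 2) =
          rt n * ((n : ℝ) / (Real.log n) ^ 2) := by
        unfold rt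
        rw [div_mul_div_comm, sq]
      have h6 : rt n ≤ (rt n) ^ 4 := le_self_pow₀ h4 (by norm_num)
      calc (repAB A B n : ℝ) ≤ cc * α ^ 2 * (rt n * ((n : ℝ) / (Real.log n) ^ 2)) := by
            rw [← h5]; exact hn.2.le
        _ ≤ cc * α ^ 2 * ((rt n) ^ 4 * (40 * (N / L ^ 2))) := by gcongr
        _ = cc * α ^ 2 * (40 * (N / L ^ 2)) * (rt n) ^ 4 := by ring
    calc _ ≤ ∑ n ∈ S.filter (fun n : ℕ => ¬ cc * α ^ 2 * ((n : ℝ) ^ 2 / ((n.totient : ℝ) *
        (Real.log n) ^ 2)) ≤ (repAB A B n : ℝ)), cc * α ^ 2 * (40 * (N / L ^ 2)) * (rt n) ^ 4 :=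
          sum_le_sum h1
      _ ≤ ∑ n ∈ S, cc * α ^ 2 * (40 * (N / L ^ 2)) * (rt n) ^ 4 := by
          apply sum_le_sum_of_subset_of_nonneg (filter_subset _ _)
          intro n _ _
          positivity
      _ = cc * α ^ 2 * (40 * (N / L ^ 2)) * ∑ n ∈ S, (rt n) ^ 4 := by rw [mul_sum]
      _ ≤ cc * α ^ 2 * (40 * (N / L ^ 2)) * (C2 * S.card) := by gcongr
      _ = (cc * (4 * 73920 ^ 2 * C2)) * (40 / (4 * 73920 ^ 2)) *
          (S.card * (α ^ 2 * (N / L ^ 2))) := by ring
      _ ≤ (1 / 2) * (S.card * (α ^ 2 * (N / L ^ 2))) := by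
          rw [cc_mul]
          have : 0 ≤ (S.card : ℝ) * (α ^ 2 * (N / L ^ 2)) := by positivity
          nlinarith
  have hsplit : ∑ n ∈ S, (repAB A B n : ℝ) = ∑ n ∈ G, (repAB A B n : ℝ) +
      ∑ n ∈ S.filter (fun n : ℕ => ¬ cc * α ^ 2 * ((n : ℝ) ^ 2 / ((n.totient : ℝ) *
      (Real.log n) ^ 2)) ≤ (repAB A B n : ℝ)), (repAB A B n : ℝ) := by
    rw [hG, goodSet, sum_filter_add_sum_filter_not]
  have hgood : (1 / 2) * (S.card * (α ^ 2 * (N / L ^ 2))) ≤ ∑ n ∈ G, (repAB A B n : ℝ) := by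
    linarith
  -- Cauchy-Schwarz
  have hcs : (∑ n ∈ G, (repAB A B n : ℝ)) ^ 2 ≤ (G.card : ℝ) * ∑ n ∈ G, (repAB A B n : ℝ) ^ 2 :=
    sq_sum_le_card_mul_sum_sq
  have hG2 : ∑ n ∈ G, (repAB A B n : ℝ) ^ 2 ≤ 73920 ^ 2 * (N / L ^ 2) ^ 2 * (C2 * S.card) := by
    calc ∑ n ∈ G, (repAB A B n : ℝ) ^ 2 ≤ ∑ n ∈ S, (repAB A B n : ℝ) ^ 2 := by
          apply sum_le_sum_of_subset_of_nonneg (filter_subset _ _)
          intro n _ _
          positivity
      _ ≤ ∑ n ∈ S, 73920 ^ 2 * (N / L ^ 2) ^ 2 * (rt n) ^ 4 := by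
          apply sum_le_sum
          intro n hn
          calc (repAB A B n : ℝ) ^ 2 ≤ (73920 * (N / L ^ 2) * (rt n) ^ 2) ^ 2 := by
                gcongr
                exact hup n hn
            _ = 73920 ^ 2 * (N / L ^ 2) ^ 2 * (rt n) ^ 4 := by ring
      _ = 73920 ^ 2 * (N / L ^ 2) ^ 2 * ∑ n ∈ S, (rt n) ^ 4 := by rw [mul_sum]
      _ ≤ _ := by gcongr
  rcases hSc.eq_or_lt with h0 | hSpos
  · rw [← h0]
    simp
  · have h1 : ((1 / 2) * (S.card * (α ^ 2 * (N / L ^ 2)))) ^ 2 ≤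
        (G.card : ℝ) * (73920 ^ 2 * (N / L ^ 2) ^ 2 * (C2 * S.card)) := by
      calc ((1 / 2) * (S.card * (α ^ 2 * (N / L ^ 2)))) ^ 2 ≤
          (∑ n ∈ G, (repAB A B n : ℝ)) ^ 2 := by gcongr
        _ ≤ _ := hcs
        _ ≤ _ := by gcongr
    have h2 : ((1 / 2) * (S.card * (α ^ 2 * (N / L ^ 2)))) ^ 2 =
        (cc * α ^ 4 * S.card) * (73920 ^ 2 * (N / L ^ 2) ^ 2 * (C2 * S.card)) := by
      have h3 := cc_mul
      have h4 : (cc * α ^ 4 * S.card) * (73920 ^ 2 * (N / L ^ 2) ^ 2 * (C2 * S.card)) =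
          (cc * (4 * 73920 ^ 2 * C2)) * (1 / 4) * (S.card * (α ^ 2 * (N / L ^ 2))) ^ 2 := by ring
      rw [h4, h3]
      ring
    rw [h2] at h1
    have hpos : 0 < 73920 ^ 2 * ((N : ℝ) / L ^ 2) ^ 2 * (C2 * S.card) := by positivity
    exact le_of_mul_le_mul_right h1 hpos

/-- There is an absolute constant c > 0 such that for all N at least 3, all alpha in (0,1], all
sets A, B of odd primes up to N/2 whose cardinalities have geometric mean at least
alpha N / log N, and every set S of even integers up to N that is Fourier uniform with error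
(c alpha / log N) times its cardinality, at least c alpha^4 card(S) elements n of S have at least
c alpha^2 n^2 / (phi(n) (log n)^2) representations n = a + b with a in A and b in B. -/
theorem result : ∃ c : ℝ, 0 < c ∧ ∀ N : ℕ, 3 ≤ N → ∀ α : ℝ, 0 < α → α ≤ 1 →
    ∀ A B S : Finset ℕ,
    (∀ p ∈ A, p.Prime ∧ p ≠ 2 ∧ 2 * p ≤ N) → (∀ p ∈ B, p.Prime ∧ p ≠ 2 ∧ 2 * p ≤ N) →
    (α * (N / Real.log N)) ^ 2 ≤ (A.card : ℝ) * B.card →
    FourierUniform N S (c * α / Real.log N) →
    c * α ^ 4 * S.card ≤ ((goodSet A B S (c * α ^ 2)).card : ℝ) :=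
  ⟨cc, cc_pos, fun _N hN _α hα hα1 A B S hA hB hAB hS =>
    main hN hα hα1 A B S hA hB hAB hS⟩

end Pool.Agent.Lib.MP_629a14_nt.Old.PseudorandomSets
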