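import Pool.Agent.Lib.MP_629a14_nt.Kp.PfMain

/-!
A rearrangement inequality for the Goldbach counts of two sets of primes with given relative
densities in the residue classes.
-/

set_option autoImplicit false

namespace Pool.Agent.Results.MP_629a14_nt.Rearrangement

open Filter Topology

/-- The number of ordered representations `n = p + q` with primes `p ∈ A`, `q ∈ B`. -/
noncomputable def repsIn (A B : Set ℕ) (n : ℕ) : ℕ :=
  Set.ncard {p : ℕ | p ≤ n ∧ p.Prime ∧ (n - p).Prime ∧ p ∈ A ∧ n - p ∈ B}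

/-- The twin prime constant, the product of `1 - 1 / (p - 1) ^ 2` over the primes `p > 2`. -/
noncomputable def twinConst : ℝ :=
  ∏' p : ℕ, if p.Prime ∧ 2 < p then 1 - 1 / ((p : ℝ) - 1) ^ 2 else 1

/-- The number of ordered representations of the even number `n` as a sum of two primes predicted
by Hardy and Littlewood. -/
noncomputable def HL (n : ℕ) : ℝ :=
  2 * twinConst * (∏ p ∈ n.primeFactors.filter (fun p => 2 < p), (((p : ℝ) - 1) / ((p : ℝ) - 2))) *
    (n / (Real.log n) ^ 2)

/-- The number of representations in `A` and `B`, divided by the prediction for all primes. -/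
noncomputable def ratio (A B : Set ℕ) (n : ℕ) : ℝ := (repsIn A B n : ℝ) / HL n

/-- The number of primes `p ≤ x` in `A` with `p ≡ a (mod q)`. -/
noncomputable def primesIn (A : Set ℕ) (q a x : ℕ) : ℕ :=
  Set.ncard {p : ℕ | p ≤ x ∧ p.Prime ∧ p ∈ A ∧ p ≡ a [MOD q]}

/-- For every multiple `q` of `W` and every `a` coprime to `q` the primes of `A` in the class `a`
modulo `q` have density `α (a mod W)` relative to all primes of this class. -/
def HasProfile (A : Set ℕ) (W : ℕ) (α : ℕ → ℝ) : Prop :=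
  ∀ q a : ℕ, 1 ≤ q → W ∣ q → a.Coprime q →
    Tendsto (fun x : ℕ => (primesIn A q a x : ℝ) / primesIn Set.univ q a x) atTop (𝓝 (α (a % W)))

/-- The mean value of `h` over the numbers in `[1, N]` in the class `c` modulo `W`, i.e. `W / N`
times the sum. -/
noncomputable def classMean (W c N : ℕ) (h : ℕ → ℝ) : ℝ :=
  (W : ℝ) / N * ∑ n ∈ (Finset.Icc 1 N).filter (fun n => n ≡ c [MOD W]), h n

/-- The residues `r` modulo `W` such that `r` and `c - r` are coprime to `W`. -/
def admissible (W c : ℕ) : Finset ℕ :=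
  (Finset.range W).filter (fun r => r.Coprime W ∧ (c + W - r).Coprime W)

/-- The convolution of the indicator functions of the intervals `(-a/2, a/2)` and `(-b/2, b/2)` of
the circle of length one, at a point of absolute value `x ≤ 1 / 2`. -/
noncomputable def trapezoid (a b x : ℝ) : ℝ :=
  min (min a b) (max (max 0 (a + b - 1)) ((a + b) / 2 - x))

/-- The mean of `trapezoid (α r) (β (c - r)) x` over the admissible `r`. -/
noncomputable def profileSum (W c : ℕ) (α β : ℕ → ℝ) (x : ℝ) : ℝ :=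
  (∑ r ∈ admissible W c, trapezoid (α r) (β ((c + W - r) % W)) x) / (admissible W c).card

/-- The mean value of `φ (profileSum W c α β x)` for `x` in `[0, 1/2]`. -/
noncomputable def extremal (W c : ℕ) (α β : ℕ → ℝ) (φ : ℝ → ℝ) : ℝ :=
  2 * ∫ x in (0 : ℝ)..(1 / 2), φ (profileSum W c α β x)

/-- The set of the numbers `p` such that the distance of `√2 p` from the nearest integer is less
than `α (p mod W) / 2`. -/
def star (W : ℕ) (α : ℕ → ℝ) : Set ℕ :=
  {p : ℕ | |Real.sqrt 2 * p - round (Real.sqrt 2 * p)| < α (p % W) / 2}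

private theorem reps_eq (A B : Set ℕ) (n : ℕ) :
    repsIn A B n = Pool.Agent.Lib.MP_629a14_nt.Sm.repsIn A B n := by
  classical
  unfold repsIn Pool.Agent.Lib.MP_629a14_nt.Sm.repsIn
  rw [← Set.ncard_coe_finset]
  congr 1
  ext p
  simp only [Set.mem_ofPred_eq, Finset.coe_filter, Finset.mem_range]
  constructor
  · rintro ⟨h1, h2⟩
    exact ⟨by omega, h2⟩
  · rintro ⟨h1, h2⟩
    exact ⟨by omega, h2⟩

private theorem ratio_eq (A B : Set ℕ) (n : ℕ) :
    ratio A B n = Pool.Agent.Lib.MP_629a14_nt.Kp.rho A B n := by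
  unfold ratio Pool.Agent.Lib.MP_629a14_nt.Kp.rho
  rw [reps_eq]
  rfl

private theorem mean_eq (A B : Set ℕ) (φ : ℝ → ℝ) (W c N : ℕ) :
    classMean W c N (fun n => φ (ratio A B n)) = Pool.Agent.Lib.MP_629a14_nt.Kp.avgc W c N
      (fun n => φ (Pool.Agent.Lib.MP_629a14_nt.Kp.rho A B n)) := by
  simp only [ratio_eq]
  rfl

private theorem extremal_eq (W c : ℕ) (α β : ℕ → ℝ) (φ : ℝ → ℝ) :
    extremal W c α β φ = Pool.Agent.Lib.MP_629a14_nt.Kp.rearr W c α β φ := rfl

/-- Let `W ≥ 1` be even and let `α`, `β` be functions on the residues modulo `W`.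
(1) Let the primes in `A`, in `B` have relative densities `α (a mod W)`, `β (a mod W)` in every
reduced class `a` modulo every multiple of `W`. Then for every even `c` and every `φ` which is
convex on `[0, ∞)` the upper limit of the mean value of `φ (ratio A B n)` over the `n ≤ N` with
`n ≡ c (mod W)` is at most `extremal W c α β φ`.
(2) If `α`, `β` have values in `[0, 1]` on the reduced residues then the sets `star W α`,
`star W β` have these densities, and for every even `c` and every `φ` which is convex on `[0, ∞)`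
the mean value of `φ (ratio (star W α) (star W β) n)` over the `n ≤ N` with `n ≡ c (mod W)` tends
to `extremal W c α β φ`. -/
theorem result (W : ℕ) (hW1 : 1 ≤ W) (hW2 : Even W) (α β : ℕ → ℝ) :
    (∀ A B : Set ℕ, HasProfile A W α → HasProfile B W β →
      ∀ c : ℕ, Even c → ∀ φ : ℝ → ℝ, ConvexOn ℝ (Set.Ici 0) φ →
        ∀ ε : ℝ, 0 < ε → ∀ᶠ N : ℕ in atTop,
          classMean W c N (fun n => φ (ratio A B n)) ≤ extremal W c α β φ + ε) ∧
    ((∀ r : ℕ, r < W → r.Coprime W → 0 ≤ α r ∧ α r ≤ 1 ∧ 0 ≤ β r ∧ β r ≤ 1) →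
      HasProfile (star W α) W α ∧ HasProfile (star W β) W β ∧
      ∀ c : ℕ, Even c → ∀ φ : ℝ → ℝ, ConvexOn ℝ (Set.Ici 0) φ →
        Tendsto (fun N : ℕ => classMean W c N (fun n => φ (ratio (star W α) (star W β) n))) atTop
          (𝓝 (extremal W c α β φ))) := by
  refine ⟨fun A B hA hB c hc φ hφ ε hε => ?_, fun h => ?_⟩
  · simp only [mean_eq, extremal_eq]
    exact Pool.Agent.Lib.MP_629a14_nt.Kp.final_upper hW1 hW2.two_dvd hc.two_dvd hA hB φ hφ ε hε
  · have h1 : ∀ r : ℕ, r < W → r.Coprime W → 0 ≤ α r ∧ α r ≤ 1 :=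
      fun r hr hc => ⟨(h r hr hc).1, (h r hr hc).2.1⟩
    have h2 : ∀ r : ℕ, r < W → r.Coprime W → 0 ≤ β r ∧ β r ≤ 1 :=
      fun r hr hc => ⟨(h r hr hc).2.2.1, (h r hr hc).2.2.2⟩
    refine ⟨Pool.Agent.Lib.MP_629a14_nt.Kp.star_profile hW1 h1,
      Pool.Agent.Lib.MP_629a14_nt.Kp.star_profile hW1 h2, fun c hc φ hφ => ?_⟩
    simp only [mean_eq, extremal_eq]
    exact Pool.Agent.Lib.MP_629a14_nt.Kp.final_limit hW1 hW2.two_dvd hc.two_dvd h1 h2 φ hφ

end Pool.Agent.Results.MP_629a14_nt.Rearrangement
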