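import Pool.Agent.Lib.MP_629a14_nt.Transfer

set_option autoImplicit false

namespace Pool.Agent.Lib.MP_629a14_nt.Old.SameDistribution

open Finset

/-- The additive character exp(2 pi i t). -/
noncomputable def ee (t : ℝ) : ℂ := Complex.exp (2 * Real.pi * t * Complex.I)

/-- The number of pairs (a,b) with a in A, b in B and a + b = n. -/
def repAB (A B : Finset ℕ) (n : ℕ) : ℕ := ((A ×ˢ B).filter (fun ab => ab.1 + ab.2 = n)).card

/-- The number of representations of n divided by the comparison function of Q1, which is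
n^2 / (phi(n) (log n)^2). -/
noncomputable def ratio (A B : Finset ℕ) (n : ℕ) : ℝ :=
  (repAB A B n : ℝ) / ((n : ℝ) ^ 2 / ((n.totient : ℝ) * (Real.log n) ^ 2))

/-- Nonnegative weights on the integers from 1 to N with sum one. -/
def IsWeight (N : ℕ) (w : ℕ → ℝ) : Prop :=
  (∀ n ∈ Icc 1 N, 0 ≤ w n) ∧ ∑ n ∈ Icc 1 N, w n = 1

/-- The total weight of the integers n from 1 to N with ratio at most c. -/
noncomputable def massLe (N : ℕ) (w : ℕ → ℝ) (A B : Finset ℕ) (c : ℝ) : ℝ :=
  ∑ n ∈ (Icc 1 N).filter (fun n => ratio A B n ≤ c), w n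

theorem ratio_eq (A B : Finset ℕ) (n : ℕ) :
    ratio A B n = Pool.Agent.Lib.MP_629a14_nt.rhoG A B n := by
  unfold ratio Pool.Agent.Lib.MP_629a14_nt.rhoG
  rw [div_div_eq_mul_div]
  rfl

/-- For two probability weights w and w' on the integers up to N, where the density of w' is
bounded by D / N and all exponential sums of w and w' agree up to c0 / (log N)^2, the distribution
functions of the normalised numbers of representations of n as a sum of two primes (from
arbitrary sets A and B of primes) with respect to w and w' agree up to delta in the sense of Levy.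
Example: w' uniform on the even numbers up to N, w uniform on a set of even numbers with Fourier
bias at most c0 / (log N)^2. -/
theorem result (δ D : ℝ) (hδ : 0 < δ) (hD : 1 ≤ D) :
    ∃ c₀ : ℝ, 0 < c₀ ∧ ∃ N₀ : ℕ, ∀ N : ℕ, N₀ ≤ N →
      ∀ A B : Finset ℕ, (∀ p ∈ A, p.Prime) → (∀ p ∈ B, p.Prime) →
        ∀ w w' : ℕ → ℝ, IsWeight N w → IsWeight N w' → (∀ n ∈ Icc 1 N, w' n ≤ D / N) →
          (∀ t : ℝ, ‖∑ n ∈ Icc 1 N, ((w n : ℂ) - (w' n : ℂ)) * ee (t * n)‖ ≤
            c₀ / (Real.log N) ^ 2) →
          ∀ c : ℝ, massLe N w A B c ≤ massLe N w' A B (c + δ) + δ ∧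
            massLe N w' A B c ≤ massLe N w A B (c + δ) + δ := by
  classical
  obtain ⟨c0, hc0, N0, hN0⟩ := Pool.Agent.Lib.MP_629a14_nt.transfer (min δ 1) D
    (lt_min hδ one_pos) (min_le_right _ _) hD
  refine ⟨c0, hc0, N0, fun N hN A B hA hB w w' hw hw' hd hu c => ?_⟩
  have h := hN0 N hN A B hA hB w w' hw hw' hd (by
    intro t
    refine le_trans (le_of_eq ?_) (hu t)
    congr 1
    refine sum_congr rfl fun n _ => ?_
    push_cast
    rfl) c
  have hmass : ∀ v : ℕ → ℝ, ∀ c : ℝ, massLe N v A B c =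
      ∑ n ∈ (Icc 1 N).filter (fun n => Pool.Agent.Lib.MP_629a14_nt.rhoG A B n ≤ c), v n := by
    intro v c
    unfold massLe
    refine sum_congr ?_ fun _ _ => rfl
    ext n
    rw [mem_filter, mem_filter, ratio_eq]
  have hmono : ∀ v : ℕ → ℝ, IsWeight N v →
      massLe N v A B (c + min δ 1) ≤ massLe N v A B (c + δ) := by
    intro v hv
    unfold massLe
    refine sum_le_sum_of_subset_of_nonneg ?_ (fun n hn _ => hv.1 n (mem_filter.1 hn).1)
    intro n hn
    rw [mem_filter] at hn ⊢
    refine ⟨hn.1, hn.2.trans ?_⟩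
    have := min_le_left δ 1
    linarith
  rw [← hmass, ← hmass, ← hmass, ← hmass] at h
  have h1 := hmono w hw
  have h2 := hmono w' hw'
  have h3 := min_le_left δ (1 : ℝ)
  exact ⟨by linarith [h.1], by linarith [h.2]⟩

end Pool.Agent.Lib.MP_629a14_nt.Old.SameDistribution
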