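import Pool.Agent.Lib.MP_629a14_nt.Rob.PartC

/-!
Sharp robustness of the binary Goldbach problem under deletion of primes.
-/

set_option autoImplicit false

namespace Pool.Agent.Results.MP_629a14_nt.SharpRobustness

open Filter Topology

/-- The number of ordered representations `n = p + q` with primes `p ∉ B₁`, `q ∉ B₂`. -/
noncomputable def repsOutside (B₁ B₂ : Set ℕ) (n : ℕ) : ℕ :=
  Set.ncard {p : ℕ | p ≤ n ∧ p.Prime ∧ (n - p).Prime ∧ p ∉ B₁ ∧ n - p ∉ B₂}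

/-- The number of primes `p ≤ x` in `B`. -/
noncomputable def primesIn (B : Set ℕ) (x : ℕ) : ℕ :=
  Set.ncard {p : ℕ | p ≤ x ∧ p.Prime ∧ p ∈ B}

/-- The comparison function `n^2 / (φ(n) log^2 n)`. -/
noncomputable def size (n : ℕ) : ℝ := (n : ℝ) ^ 2 / ((n.totient : ℝ) * Real.log n ^ 2)

/-- The number of even `n`, `1 ≤ n ≤ N`, with at most `c * size n` representations outside `B`. -/
noncomputable def poor (c : ℝ) (B : Set ℕ) (N : ℕ) : ℕ :=
  Set.ncard {n : ℕ | 1 ≤ n ∧ n ≤ N ∧ Even n ∧ (repsOutside B B n : ℝ) ≤ c * size n}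

/-- Upper density of `B` relative to the primes. -/
noncomputable def relDensity (B : Set ℕ) : ℝ :=
  limsup (fun x : ℕ => (primesIn B x : ℝ) / primesIn Set.univ x) atTop

/-- The largest upper density of the even `n` with at most `c * size n` representations outside `B`,
over all sets `B` of relative upper density at most `η`. -/
noncomputable def worst (c η : ℝ) : ℝ :=
  sSup {d : ℝ | ∃ B : Set ℕ, relDensity B ≤ η ∧
    d = limsup (fun N : ℕ => (poor c B N : ℝ) / N) atTop}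

/-- The product of `(p - 2) / (p - 1)` over the primes `3 ≤ p ≤ w`. -/
noncomputable def crit (w : ℕ) : ℝ :=
  ∏ p ∈ (Finset.Icc 3 w).filter Nat.Prime, (((p : ℝ) - 2) / ((p : ℝ) - 1))

/-- The twin prime constant. -/
noncomputable def twinConst : ℝ :=
  ∏' p : ℕ, if p.Prime ∧ 2 < p then 1 - 1 / ((p : ℝ) - 1) ^ 2 else 1

private theorem reps_eq (B₁ B₂ : Set ℕ) (n : ℕ) :
    repsOutside B₁ B₂ n = Pool.Agent.Lib.MP_629a14_nt.Rob.reps B₁ B₂ n := by
  classical
  unfold repsOutside Pool.Agent.Lib.MP_629a14_nt.Rob.reps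
  rw [← Set.ncard_coe_finset]
  congr 1
  ext p
  simp only [Set.mem_ofPred_eq, Finset.coe_filter, Finset.mem_range]
  constructor
  · rintro ⟨h1, h2⟩
    exact ⟨by omega, h2⟩
  · rintro ⟨h1, h2⟩
    exact ⟨by omega, h2⟩

private theorem cnt_eq (B : Set ℕ) (x : ℕ) :
    primesIn B x = Pool.Agent.Lib.MP_629a14_nt.Rob.cntB B x := by
  classical
  unfold primesIn Pool.Agent.Lib.MP_629a14_nt.Rob.cntB
  rw [← Set.ncard_coe_finset]
  congr 1
  ext p
  simp only [Set.mem_ofPred_eq, Finset.coe_filter, Finset.mem_Icc]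
  constructor
  · rintro ⟨h1, h2, h3⟩
    exact ⟨⟨h2.one_le, h1⟩, h2, h3⟩
  · rintro ⟨⟨_, h1⟩, h2, h3⟩
    exact ⟨h1, h2, h3⟩

private theorem poor_eq (c : ℝ) (B : Set ℕ) (N : ℕ) :
    poor c B N = ((Finset.Icc 1 N).filter (fun n : ℕ => Even n ∧
      (Pool.Agent.Lib.MP_629a14_nt.Rob.reps B B n : ℝ) ≤
        c * ((n : ℝ) ^ 2 / ((n.totient : ℝ) * Real.log n ^ 2)))).card := by
  unfold poor size
  rw [← Set.ncard_coe_finset]
  congr 1
  ext n
  simp only [Set.mem_ofPred_eq, Finset.coe_filter, Finset.mem_Icc, reps_eq]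
  tauto

private theorem relDensity_eq (B : Set ℕ) :
    relDensity B = Pool.Agent.Lib.MP_629a14_nt.Rob.relDens B := by
  unfold relDensity Pool.Agent.Lib.MP_629a14_nt.Rob.relDens
  simp only [cnt_eq]

private theorem worst_eq (c η : ℝ) : worst c η = Pool.Agent.Lib.MP_629a14_nt.Rob.EE c η := by
  unfold worst Pool.Agent.Lib.MP_629a14_nt.Rob.EE Pool.Agent.Lib.MP_629a14_nt.Rob.excDens
  simp only [relDensity_eq, poor_eq]

/-- (1) If `c η ≥ 0` tends to `0` then `η log (-log (worst (c η) η))` tends to the twin prime constant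
times `exp (-γ)`, as `η → 0+`.
(2) and (3): the quantitative theorem for two sets, and the example. -/
theorem result :
    (∀ c : ℝ → ℝ, (∀ η, 0 < η → 0 ≤ c η) → Tendsto c (𝓝[>] 0) (𝓝 0) →
      Tendsto (fun η : ℝ => η * Real.log (-Real.log (worst (c η) η))) (𝓝[>] 0)
        (𝓝 (twinConst * Real.exp (-Real.eulerMascheroniConstant)))) ∧
    (∀ ε : ℝ, 0 < ε → ε ≤ 1 → ∃ w₀ : ℕ, ∀ w : ℕ, w₀ ≤ w → ∃ δ : ℝ, 0 < δ ∧
      ∃ N₀ : ℕ, ∀ N : ℕ, N₀ ≤ N → ∀ B₁ B₂ : Set ℕ,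
        (∀ x : ℕ, δ * N ≤ x → x ≤ N →
          (primesIn B₁ x : ℝ) + primesIn B₂ x ≤ (1 - ε) * crit w * primesIn Set.univ x) →
        (Set.ncard {n : ℕ | 1 ≤ n ∧ n ≤ N ∧ Even n ∧
          (repsOutside B₁ B₂ n : ℝ) < ε / 200 * size n} : ℝ) ≤ Real.exp (-(ε * w / 3)) * N) ∧
    (∀ w : ℕ, 3 ≤ w → ∃ B : Set ℕ,
      Tendsto (fun x : ℕ => (primesIn B x : ℝ) / primesIn Set.univ x) atTop
        (𝓝 ((crit w + 1 / (primorial w).totient) / 2)) ∧
      ∀ N : ℕ, (N : ℝ) / 4 ^ w - 1 ≤ poor 0 B N) := by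
  refine ⟨?_, ?_, ?_⟩
  · intro c hc hc0
    have h := Pool.Agent.Lib.MP_629a14_nt.Rob.EE_lim c hc hc0
    simp only [worst_eq]
    exact h
  · intro ε hε hε1
    obtain ⟨w₀, hw₀⟩ := Pool.Agent.Lib.MP_629a14_nt.Rob.partA ε hε hε1
    refine ⟨w₀, fun w hw => ?_⟩
    obtain ⟨δ, hδ, N₀, hN₀⟩ := hw₀ w hw
    refine ⟨δ, hδ, N₀, fun N hN B₁ B₂ hB => ?_⟩
    have h := hN₀ N hN B₁ B₂ (by
      intro x h1 h2
      have h3 := hB x h1 h2
      simp only [cnt_eq] at h3
      exact h3)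
    refine le_trans (le_of_eq ?_) h
    congr 1
    rw [← Set.ncard_coe_finset]
    congr 1
    ext n
    simp only [Set.mem_ofPred_eq, Finset.coe_filter, Finset.mem_Icc, reps_eq, size]
    tauto
  · intro w hw
    obtain ⟨B, h1, _, h3⟩ := Pool.Agent.Lib.MP_629a14_nt.Rob.partB w hw
    refine ⟨B, ?_, fun N => ?_⟩
    · simp only [cnt_eq]
      exact h1
    · refine (h3 N).trans (le_of_eq ?_)
      rw [poor_eq]
      congr 2
      ext n
      simp only [Finset.mem_filter, zero_mul]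
      constructor
      · rintro ⟨a, b, c⟩
        exact ⟨a, b, by rw [c]; simp⟩
      · rintro ⟨a, b, c⟩
        exact ⟨a, b, by exact_mod_cast le_antisymm c (by positivity)⟩

end Pool.Agent.Results.MP_629a14_nt.SharpRobustness
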